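import Pool.Agent.Helper52.AH.Defs

/-!
# L3: Berge's count

Proof. Every `O ∈ F` is odd, so the involution `m` does not act on `O` without fixed points and inside `O`:
there is `v ∈ O` with `m v = v` or `m v ∉ O`, and then `m v ∈ S` (`closed`, as `G.Adj v (m v)`). Choose such a
`v = f O` for every `O ∈ F`; `f` is injective on `F` (`disj`). The map `O ↦ inl (f O)` if
`m (f O) = f O`, `inr (m (f O))` otherwise is injective from `F` into `(ex m \ S) ⊕ (S \ ex m)`
(`m` is injective; `f O ∉ S` by `off`; `m (f O)` is not exposed). So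
`F.card ≤ (ex m \ S).card + (S \ ex m).card`, and `(ex m).card = (ex m ∩ S).card + (ex m \ S).card`,
`S.card = (S ∩ ex m).card + (S \ ex m).card`.
-/

set_option autoImplicit false

namespace Pool.Agent.Helper52.AH

open Finset

universe u

open Classical in
theorem berge {V : Type u} [Fintype V] {G : SimpleGraph V} {S : Finset V} {F : Finset (Finset V)}
    (hB : Bar G S F) {m : V → V} (hm : Mt G m) :
    F.card + 2 * (S ∩ ex m).card ≤ (ex m).card + S.card := by
  have h0 : ∀ O ∈ F, ∃ v ∈ O, m v = v ∨ m v ∉ O := by
    intro O hO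
    by_contra hcon
    push Not at hcon
    have h5 : ∑ v ∈ O, (1 : ZMod 2) = 0 := by
      apply Finset.sum_involution (fun v _ => m v)
      · intro v _
        decide
      · intro v hv _
        exact (hcon v hv).1
      · intro v hv
        exact (hcon v hv).2
      · intro v _
        exact hm.inv v
    rw [Finset.sum_const, nsmul_eq_mul, mul_one, ZMod.natCast_eq_zero_iff_even] at h5
    exact (Nat.not_even_iff_odd.2 (hB.odd O hO)) h5
  rcases F.eq_empty_or_nonempty with rfl | ⟨O₀, hO₀⟩
  · have h4 := Finset.card_inter_add_card_sdiff (ex m) S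
    have h5 := Finset.card_inter_add_card_sdiff S (ex m)
    rw [Finset.inter_comm] at h4
    rw [Finset.card_empty]
    omega
  have : Nonempty V := ⟨(h0 O₀ hO₀).choose⟩
  choose! f hf1 hf2 using h0
  have hinj : ∀ O ∈ F, ∀ O' ∈ F, f O = f O' → O = O' := by
    intro O hO O' hO' h
    exact hB.disj O hO O' hO' (f O) (hf1 O hO) (h ▸ hf1 O' hO')
  have h1 : (F.filter fun O => m (f O) = f O).card ≤ (ex m \ S).card := by
    apply Finset.card_le_card_of_injOn f
    · intro O hO
      rw [Finset.mem_coe, mem_filter] at hO
      rw [Finset.mem_coe, mem_sdiff]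
      exact ⟨mem_ex.2 hO.2, hB.off O hO.1 _ (hf1 O hO.1)⟩
    · intro O hO O' hO' h
      rw [Finset.mem_coe, mem_filter] at hO hO'
      exact hinj O hO.1 O' hO'.1 h
  have h2 : (F.filter fun O => ¬ m (f O) = f O).card ≤ (S \ ex m).card := by
    apply Finset.card_le_card_of_injOn fun O => m (f O)
    · intro O hO
      rw [Finset.mem_coe, mem_filter] at hO
      rw [Finset.mem_coe, mem_sdiff]
      have h3 := (hf2 O hO.1).resolve_left hO.2
      refine ⟨(hB.closed O hO.1 _ (hf1 O hO.1) _ (hm.adj _ hO.2)).resolve_left h3, fun h => ?_⟩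
      rw [mem_ex, hm.inv] at h
      exact hO.2 h.symm
    · intro O hO O' hO' h
      rw [Finset.mem_coe, mem_filter] at hO hO'
      apply hinj O hO.1 O' hO'.1
      have h4 := congrArg m h
      simpa only [hm.inv] using h4
  have h3 := Finset.card_filter_add_card_filter_not (s := F) (fun O => m (f O) = f O)
  have h4 := Finset.card_inter_add_card_sdiff (ex m) S
  have h5 := Finset.card_inter_add_card_sdiff S (ex m)
  rw [Finset.inter_comm] at h4
  omega

end Pool.Agent.Helper52.AH
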