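import Pool.Agent.Helper52.AH.Defs

/-!
# L7: contraction of one side of a 2-edge cut

`ctr G U` is the graph obtained by contracting `U` to one vertex `none`. `Cut2 G U v1 v2 s1 s2`: exactly two
edges leave `U`, namely `v1 s1` and `v2 s2`, with `v1 ≠ v2` in `U` and `s1 ≠ s2` off `U`.

* `dg_some`: the map `w ↦ some w` (`w ∉ U`), `w ↦ none` (`w ∈ U`) is a bijection from the neighbours of `a` in
  `G` to the neighbours of `some a` in `ctr G U` (injective: `a` has at most one neighbour in `U`, because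
  `s1 ≠ s2`).
* `dg_none`: the neighbours of `none` are `some s1`, `some s2`.
* `lv_ctr`: for `X` a set of vertices of `ctr G U`, let `X' = {v | κ v ∈ X}`, `κ v = some v` or `none`.
  `lv G X' → lv (ctr G U) X`, `(v, w) ↦ (κ v, κ w)` is injective (an edge of `G` with an end off `U` is
  determined by its image, by the same argument), so `(lv G X').card ≤ (lv (ctr G U) X).card`. If `X` is
  nonempty and not everything then so is `X'` (`U` is nonempty, `v1 ∈ U`).
* `glue`: let `c1`, `c2` be colourings of `ctr G U` and `ctr G Uᶜ`. In both, the two edges at `none` have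
  different colours. Take a permutation `π` of `Fin 3` with
  `π (c2 (some v1) none) = c1 (some s1) none`, `π (c2 (some v2) none) = c1 (some s2) none`. Colour `v w`:
  both off `U`: `c1 (some v) (some w)`; both in `U`: `π (c2 (some v) (some w))`; `v ∉ U`, `w ∈ U`:
  `c1 (some v) none`; `v ∈ U`, `w ∉ U`: `c1 (some w) none`, which for an edge is
  `π (c2 (some v) none)`.
-/

set_option autoImplicit false

namespace Pool.Agent.Helper52.AH

open Finset

universe u

/-- the graph obtained from `G` by contracting `U` to the vertex `none` -/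
def ctr {V : Type u} (G : SimpleGraph V) (U : Finset V) : SimpleGraph (Option {v : V // v ∉ U}) where
  Adj
    | some a, some b => G.Adj a.1 b.1
    | some a, none => ∃ q ∈ U, G.Adj a.1 q
    | none, some b => ∃ q ∈ U, G.Adj b.1 q
    | none, none => False
  symm := ⟨by
    rintro (_ | a) (_ | b) h
    · exact h
    · exact h
    · exact h
    · exact h.symm⟩
  loopless := ⟨by
    rintro (_ | a) h
    · exact h
    · exact G.loopless.irrefl _ h⟩

/-- exactly two edges leave `U`: `v1 s1` and `v2 s2`, with different ends on both sides -/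
structure Cut2 {V : Type u} (G : SimpleGraph V) (U : Finset V) (v1 v2 s1 s2 : V) : Prop where
  in1 : v1 ∈ U
  in2 : v2 ∈ U
  off1 : s1 ∉ U
  off2 : s2 ∉ U
  nv : v1 ≠ v2
  ns : s1 ≠ s2
  a1 : G.Adj v1 s1
  a2 : G.Adj v2 s2
  only : ∀ v s, v ∈ U → s ∉ U → G.Adj v s → (v = v1 ∧ s = s1) ∨ (v = v2 ∧ s = s2)

/-- the contraction map -/
private def kp {V : Type u} [DecidableEq V] (U : Finset V) (v : V) : Option {v : V // v ∉ U} :=
  if h : v ∈ U then none else some ⟨v, h⟩

private theorem kp_in {V : Type u} [DecidableEq V] {U : Finset V} {v : V} (h : v ∈ U) :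
    kp U v = none := by
  simp [kp, h]

private theorem kp_off {V : Type u} [DecidableEq V] {U : Finset V} {v : V} (h : v ∉ U) :
    kp U v = some ⟨v, h⟩ := by
  simp [kp, h]

private theorem kp_some {V : Type u} [DecidableEq V] {U : Finset V} (a : {v : V // v ∉ U}) :
    kp U a.1 = some a := kp_off a.2

private theorem kp_adj {V : Type u} [DecidableEq V] {G : SimpleGraph V} {U : Finset V} {v w : V}
    (h : G.Adj v w) (hn : ¬ (v ∈ U ∧ w ∈ U)) : (ctr G U).Adj (kp U v) (kp U w) := by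
  by_cases hv : v ∈ U
  · have hw : w ∉ U := fun hw => hn ⟨hv, hw⟩
    rw [kp_in hv, kp_off hw]
    exact ⟨v, hv, h.symm⟩
  · rw [kp_off hv]
    by_cases hw : w ∈ U
    · rw [kp_in hw]
      exact ⟨w, hw, h⟩
    · rw [kp_off hw]
      exact h

private theorem kp_inj {V : Type u} [DecidableEq V] {G : SimpleGraph V} {U : Finset V}
    {v1 v2 s1 s2 : V} (h : Cut2 G U v1 v2 s1 s2) {a w w' : V} (ha : a ∉ U) (hw : G.Adj a w)
    (hw' : G.Adj a w') (e : kp U w = kp U w') : w = w' := by
  by_cases h1 : w ∈ U <;> by_cases h2 : w' ∈ U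
  · rcases h.only w a h1 ha hw.symm with ⟨e1, e2⟩ | ⟨e1, e2⟩ <;>
      rcases h.only w' a h2 ha hw'.symm with ⟨e3, e4⟩ | ⟨e3, e4⟩
    · rw [e1, e3]
    · exact absurd (e2.symm.trans e4) h.ns
    · exact absurd (e4.symm.trans e2) h.ns
    · rw [e1, e3]
  · rw [kp_in h1, kp_off h2] at e
    exact absurd e (by simp)
  · rw [kp_off h1, kp_in h2] at e
    exact absurd e (by simp)
  · rw [kp_off h1, kp_off h2] at e
    exact congrArg Subtype.val (Option.some_injective _ e)

private theorem kp_ne {V : Type u} [DecidableEq V] {U : Finset V} {v w : V}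
    (e : kp U v ≠ kp U w) : ¬ (v ∈ U ∧ w ∈ U) := by
  rintro ⟨h1, h2⟩
  exact e (by rw [kp_in h1, kp_in h2])

theorem Cut2.compl {V : Type u} [Fintype V] [DecidableEq V] {G : SimpleGraph V} {U : Finset V}
    {v1 v2 s1 s2 : V} (h : Cut2 G U v1 v2 s1 s2) : Cut2 G Uᶜ s1 s2 v1 v2 where
  in1 := mem_compl.2 h.off1
  in2 := mem_compl.2 h.off2
  off1 := fun h' => (mem_compl.1 h') h.in1
  off2 := fun h' => (mem_compl.1 h') h.in2
  nv := h.ns
  ns := h.nv
  a1 := h.a1.symm
  a2 := h.a2.symm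
  only := fun v s hv hs hvs => by
    have h1 : s ∈ U := by
      by_contra h'
      exact hs (mem_compl.2 h')
    rcases h.only s v h1 (mem_compl.1 hv) hvs.symm with ⟨e1, e2⟩ | ⟨e1, e2⟩
    · exact Or.inl ⟨e2, e1⟩
    · exact Or.inr ⟨e2, e1⟩

theorem dg_some {V : Type u} [Fintype V] [DecidableEq V] {G : SimpleGraph V} {U : Finset V}
    {v1 v2 s1 s2 : V} (h : Cut2 G U v1 v2 s1 s2) (a : {v : V // v ∉ U}) :
    dg (ctr G U) (some a) = dg G a.1 := by
  have h1 : nb (ctr G U) (some a) = (nb G a.1).image (kp U) := by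
    ext x
    rw [mem_nb, mem_image]
    constructor
    · intro hx
      match x, hx with
      | none, hx =>
        obtain ⟨q, hq, haq⟩ := hx
        exact ⟨q, mem_nb.2 haq, kp_in hq⟩
      | some b, hx => exact ⟨b.1, mem_nb.2 hx, kp_some b⟩
    · rintro ⟨w, hw, rfl⟩
      have := kp_adj (U := U) (mem_nb.1 hw) (fun h' => a.2 h'.1)
      rwa [kp_some] at this
  unfold dg
  rw [h1, card_image_of_injOn]
  intro w hw w' hw' e
  exact kp_inj h a.2 (mem_nb.1 (mem_coe.1 hw)) (mem_nb.1 (mem_coe.1 hw')) e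

theorem dg_none {V : Type u} [Fintype V] [DecidableEq V] {G : SimpleGraph V} {U : Finset V}
    {v1 v2 s1 s2 : V} (h : Cut2 G U v1 v2 s1 s2) : dg (ctr G U) none = 2 := by
  have h1 : nb (ctr G U) none = {some ⟨s1, h.off1⟩, some ⟨s2, h.off2⟩} := by
    ext x
    rw [mem_nb, mem_insert, mem_singleton]
    constructor
    · intro hx
      match x, hx with
      | none, hx => exact absurd hx ((ctr G U).loopless.irrefl _)
      | some b, hx =>
        obtain ⟨q, hq, hbq⟩ := hx
        rcases h.only q b.1 hq b.2 hbq.symm with ⟨-, e⟩ | ⟨-, e⟩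
        · left
          exact congrArg some (Subtype.ext e)
        · right
          exact congrArg some (Subtype.ext e)
    · rintro (rfl | rfl)
      · exact ⟨v1, h.in1, h.a1.symm⟩
      · exact ⟨v2, h.in2, h.a2.symm⟩
  unfold dg
  rw [h1, card_pair]
  intro e
  exact h.ns (congrArg Subtype.val (Option.some_injective _ e))

theorem lv_ctr {V : Type u} [Fintype V] [DecidableEq V] {G : SimpleGraph V} {U : Finset V}
    {v1 v2 s1 s2 : V} (h : Cut2 G U v1 v2 s1 s2)
    (h2 : ∀ X : Finset V, X.Nonempty → X ≠ univ → 2 ≤ (lv G X).card)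
    (X : Finset (Option {v : V // v ∉ U})) (h0 : X.Nonempty) (h1 : X ≠ univ) :
    2 ≤ (lv (ctr G U) X).card := by
  have hsurj : ∀ x : Option {v : V // v ∉ U}, ∃ v, kp U v = x := by
    intro x
    match x with
    | none => exact ⟨v1, kp_in h.in1⟩
    | some b => exact ⟨b.1, kp_some b⟩
  set X' : Finset V := univ.filter fun v => kp U v ∈ X with hX'
  have hmem : ∀ v, v ∈ X' ↔ kp U v ∈ X := fun v => by simp [hX']
  have hne : X'.Nonempty := by
    obtain ⟨x, hx⟩ := h0
    obtain ⟨v, rfl⟩ := hsurj x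
    exact ⟨v, (hmem v).2 hx⟩
  have hnu : X' ≠ univ := by
    intro e
    apply h1
    rw [eq_univ_iff_forall]
    intro x
    obtain ⟨v, rfl⟩ := hsurj x
    exact (hmem v).1 (e ▸ mem_univ v)
  refine (h2 X' hne hnu).trans (card_le_card_of_injOn (fun p => (kp U p.1, kp U p.2)) ?_ ?_)
  · intro p hp
    obtain ⟨hp1, hp2, hp3⟩ := mem_lv.1 (mem_coe.1 hp)
    rw [hmem] at hp1 hp2
    refine mem_coe.2 (mem_lv.2 ⟨hp1, hp2, kp_adj hp3 (kp_ne ?_)⟩)
    intro e
    exact hp2 (e ▸ hp1)
  · rintro ⟨v, w⟩ hp ⟨v', w'⟩ hp' e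
    obtain ⟨hp1, hp2, hp3⟩ := mem_lv.1 (mem_coe.1 hp)
    obtain ⟨hq1, hq2, hq3⟩ := mem_lv.1 (mem_coe.1 hp')
    rw [hmem] at hp1 hp2 hq1 hq2
    simp only [Prod.mk.injEq] at e hp1 hp2 hq1 hq2 hp3 hq3 ⊢
    obtain ⟨e1, e2⟩ := e
    by_cases hv : v ∈ U
    · have hw : w ∉ U := by
        intro hw
        refine kp_ne (U := U) (v := v) (w := w) ?_ ⟨hv, hw⟩
        intro e
        exact hp2 (e ▸ hp1)
      have hww : w = w' := by
        have e3 := e2
        rw [kp_off hw] at e3
        by_cases hw' : w' ∈ U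
        · rw [kp_in hw'] at e3
          exact absurd e3 (by simp)
        · rw [kp_off hw'] at e3
          exact congrArg Subtype.val (Option.some_injective _ e3)
      subst hww
      exact ⟨kp_inj h hw hp3.symm hq3.symm e1, rfl⟩
    · have hvv : v = v' := by
        have e3 := e1
        rw [kp_off hv] at e3
        by_cases hv' : v' ∈ U
        · rw [kp_in hv'] at e3
          exact absurd e3 (by simp)
        · rw [kp_off hv'] at e3
          exact congrArg Subtype.val (Option.some_injective _ e3)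
      subst hvv
      exact ⟨rfl, kp_inj h hv hp3 hq3 e2⟩

private theorem exists_perm : ∀ a1 a2 b1 b2 : Fin 3, a1 ≠ a2 → b1 ≠ b2 →
    ∃ π : Equiv.Perm (Fin 3), π a1 = b1 ∧ π a2 = b2 := by
  decide

theorem glue {V : Type u} [Fintype V] [DecidableEq V] {G : SimpleGraph V} {U : Finset V}
    {v1 v2 s1 s2 : V} (h : Cut2 G U v1 v2 s1 s2) (h1 : Col3 (ctr G U)) (h2 : Col3 (ctr G Uᶜ)) :
    Col3 G := by
  obtain ⟨c1, c1s, c1p⟩ := h1
  obtain ⟨c2, c2s, c2p⟩ := h2
  have hc := h.compl
  have nU : ∀ {v : V}, v ∈ U → v ∉ Uᶜ := fun hv h' => (mem_compl.1 h') hv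
  have a1 : c2 (kp Uᶜ v1) none ≠ c2 (kp Uᶜ v2) none := by
    rw [c2s _ none, c2s _ none]
    refine c2p none _ _ ?_ ?_ ?_
    · rw [kp_off (nU h.in1)]
      exact ⟨s1, mem_compl.2 h.off1, h.a1⟩
    · rw [kp_off (nU h.in2)]
      exact ⟨s2, mem_compl.2 h.off2, h.a2⟩
    · rw [kp_off (nU h.in1), kp_off (nU h.in2)]
      intro e
      exact h.nv (congrArg Subtype.val (Option.some_injective _ e))
  have b1 : c1 none (kp U s1) ≠ c1 none (kp U s2) := by
    refine c1p none _ _ ?_ ?_ ?_
    · rw [kp_off h.off1]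
      exact ⟨v1, h.in1, h.a1.symm⟩
    · rw [kp_off h.off2]
      exact ⟨v2, h.in2, h.a2.symm⟩
    · rw [kp_off h.off1, kp_off h.off2]
      intro e
      exact h.ns (congrArg Subtype.val (Option.some_injective _ e))
  obtain ⟨π, hπ1, hπ2⟩ := exists_perm _ _ _ _ a1 b1
  have key : ∀ v w, v ∈ U → w ∉ U → G.Adj v w → c1 none (kp U w) = π (c2 (kp Uᶜ v) none) := by
    intro v w hv hw hvw
    rcases h.only v w hv hw hvw with ⟨rfl, rfl⟩ | ⟨rfl, rfl⟩
    · exact hπ1.symm
    · exact hπ2.symm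
  refine ⟨fun v w => if v ∈ U ∧ w ∈ U then π (c2 (kp Uᶜ v) (kp Uᶜ w)) else c1 (kp U v) (kp U w),
    ?_, ?_⟩
  · intro v w
    show (if v ∈ U ∧ w ∈ U then π (c2 (kp Uᶜ v) (kp Uᶜ w)) else c1 (kp U v) (kp U w)) =
      (if w ∈ U ∧ v ∈ U then π (c2 (kp Uᶜ w) (kp Uᶜ v)) else c1 (kp U w) (kp U v))
    by_cases hvw : v ∈ U ∧ w ∈ U
    · rw [if_pos hvw, if_pos hvw.symm, c2s]
    · rw [if_neg hvw, if_neg (fun h' => hvw h'.symm), c1s]
  · intro v w w' hw hw' hne
    show (if v ∈ U ∧ w ∈ U then π (c2 (kp Uᶜ v) (kp Uᶜ w)) else c1 (kp U v) (kp U w)) ≠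
      (if v ∈ U ∧ w' ∈ U then π (c2 (kp Uᶜ v) (kp Uᶜ w')) else c1 (kp U v) (kp U w'))
    by_cases hv : v ∈ U
    · by_cases h3 : w ∈ U <;> by_cases h4 : w' ∈ U
      · rw [if_pos ⟨hv, h3⟩, if_pos ⟨hv, h4⟩]
        intro e
        refine c2p _ _ _ (kp_adj hw fun h' => nU hv h'.1) (kp_adj hw' fun h' => nU hv h'.1) ?_
          (π.injective e)
        rw [kp_off (nU h3), kp_off (nU h4)]
        intro e
        exact hne (congrArg Subtype.val (Option.some_injective _ e))
      · rw [if_pos ⟨hv, h3⟩, if_neg (fun h' => h4 h'.2), kp_in hv, key v w' hv h4 hw']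
        intro e
        have e' := π.injective e
        rw [← kp_in (mem_compl.2 h4)] at e'
        refine c2p _ _ _ (kp_adj hw fun h' => nU hv h'.1) (kp_adj hw' fun h' => nU hv h'.1) ?_ e'
        rw [kp_off (nU h3), kp_in (mem_compl.2 h4)]
        simp
      · rw [if_neg (fun h' => h3 h'.2), if_pos ⟨hv, h4⟩, kp_in hv, key v w hv h3 hw]
        intro e
        have e' := π.injective e
        rw [← kp_in (mem_compl.2 h3)] at e'
        refine c2p _ _ _ (kp_adj hw fun h' => nU hv h'.1) (kp_adj hw' fun h' => nU hv h'.1) ?_ e'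
        rw [kp_off (nU h4), kp_in (mem_compl.2 h3)]
        simp
      · exfalso
        rcases h.only v w hv h3 hw with ⟨e1, e2⟩ | ⟨e1, e2⟩ <;>
          rcases h.only v w' hv h4 hw' with ⟨e3, e4⟩ | ⟨e3, e4⟩
        · exact hne (e2.trans e4.symm)
        · exact h.nv (e1.symm.trans e3)
        · exact h.nv (e3.symm.trans e1)
        · exact hne (e2.trans e4.symm)
    · rw [if_neg (fun h' => hv h'.1), if_neg (fun h' => hv h'.1)]
      exact c1p _ _ _ (kp_adj hw fun h' => hv h'.1) (kp_adj hw' fun h' => hv h'.1)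
        fun e => hne (kp_inj h hv hw hw' e)

end Pool.Agent.Helper52.AH
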