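import Pool.Agent.Helper52.AH.Cover
import Pool.Agent.Helper52.AH.Berge

/-!
# L6: from a tight matching to a 3-edge-colouring
-/

set_option autoImplicit false

namespace Pool.Agent.Helper52.AH

open Finset

universe u

variable {V : Type u} [Fintype V]

/-- `G` without the edges of the matching `m` -/
def del (G : SimpleGraph V) (m : V → V) (hm : Mt G m) : SimpleGraph V where
  Adj v w := G.Adj v w ∧ m v ≠ w
  symm := ⟨fun v w h => ⟨h.1.symm, fun e => h.2 (by rw [← e, hm.inv])⟩⟩
  loopless := ⟨fun v h => G.loopless.irrefl _ h.1⟩

omit [Fintype V] in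
theorem del_adj {G : SimpleGraph V} {m : V → V} {hm : Mt G m} {v w : V} :
    (del G m hm).Adj v w ↔ G.Adj v w ∧ m v ≠ w := Iff.rfl

open Classical in
theorem dg_del {G : SimpleGraph V} {m : V → V} (hm : Mt G m) (v : V) (h : m v ≠ v) :
    dg (del G m hm) v + 1 = dg G v := by
  have h1 : nb (del G m hm) v = (nb G v).erase (m v) := by
    ext w
    simp only [mem_nb, del_adj, mem_erase]
    constructor
    · rintro ⟨a, b⟩
      exact ⟨fun e => b e.symm, a⟩
    · rintro ⟨a, b⟩
      exact ⟨b, fun e => a e.symm⟩
  rw [dg, h1, dg]
  exact Finset.card_erase_add_one (mem_nb.2 (hm.adj v h))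

theorem dg_del_le {G : SimpleGraph V} {m : V → V} (hm : Mt G m) (v : V) :
    dg (del G m hm) v ≤ dg G v := by
  apply Finset.card_le_card
  intro w hw
  rw [mem_nb] at hw ⊢
  exact hw.1

omit [Fintype V] in
/-- a set on which a fixed-point-free involution acts is even -/
theorem even_of_inv {K : Finset V} {p : V → V} (hp : ∀ v, p (p v) = v) (hK : ∀ v ∈ K, p v ∈ K)
    (hf : ∀ v ∈ K, p v ≠ v) : Even K.card := by
  have h5 : ∑ v ∈ K, (1 : ZMod 2) = 0 := by
    refine Finset.sum_involution (fun v _ => p v) ?_ ?_ (fun v hv => hK v hv) (fun v _ => hp v)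
    · intro v _
      decide
    · intro v hv _
      exact hf v hv
  rw [Finset.sum_const, nsmul_eq_mul, mul_one, ZMod.natCast_eq_zero_iff_even] at h5
  exact h5

open Classical in
/-- a closed set of vertices of degree two which is bipartite is even -/
theorem even_of_bip (H : SimpleGraph V) (b : V → Bool) (K : Finset V)
    (hcl : ∀ v ∈ K, ∀ w, H.Adj v w → w ∈ K) (hb : ∀ v ∈ K, ∀ w ∈ K, H.Adj v w → b v ≠ b w)
    (h2 : ∀ v ∈ K, dg H v = 2) : Even K.card := by
  set A := K.filter fun v => b v = true with hA
  set B := K.filter fun v => ¬ b v = true with hB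
  have key : ∀ (P Q : Finset V), P ⊆ K → (∀ v ∈ P, ∀ w ∈ K, H.Adj v w → w ∈ Q) →
      ∑ v ∈ P, dg H v = ∑ v ∈ P, ∑ w ∈ Q, if H.Adj v w then 1 else 0 := by
    intro P Q hP hQ
    apply Finset.sum_congr rfl
    intro v hv
    rw [← Finset.card_filter, dg]
    congr 1
    ext w
    simp only [mem_nb, mem_filter]
    constructor
    · intro h
      exact ⟨hQ v hv w (hcl v (hP hv) w h) h, h⟩
    · exact fun h => h.2
  have e1 := key A B (filter_subset _ _) (by
    intro v hv w hw h
    rw [hA, mem_filter] at hv
    rw [hB, mem_filter]
    exact ⟨hw, fun e => hb v hv.1 w hw h (by rw [hv.2, e])⟩)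
  have e2 := key B A (filter_subset _ _) (by
    intro v hv w hw h
    rw [hB, mem_filter] at hv
    rw [hA, mem_filter]
    refine ⟨hw, ?_⟩
    have := hb v hv.1 w hw h
    cases h1 : b v <;> cases h2 : b w <;> simp_all)
  have e3 : ∑ v ∈ A, dg H v = ∑ v ∈ B, dg H v := by
    rw [e1, e2, Finset.sum_comm]
    apply Finset.sum_congr rfl
    intro v _
    apply Finset.sum_congr rfl
    intro w _
    simp only [H.adj_comm]
  have f1 : ∑ v ∈ A, dg H v = A.card * 2 :=
    Finset.sum_const_nat (fun v hv => h2 v (mem_of_mem_filter v hv))
  have f2 : ∑ v ∈ B, dg H v = B.card * 2 :=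
    Finset.sum_const_nat (fun v hv => h2 v (mem_of_mem_filter v hv))
  have e4 : A.card + B.card = K.card := by
    rw [hA, hB]
    convert Finset.card_filter_add_card_filter_not (s := K) (fun v => b v = true)
  exact ⟨B.card, by omega⟩

open Classical in
theorem core {G : SimpleGraph V} (hdeg : ∀ v, dg G v ≤ 3) (b : V → Bool)
    (hb : ∀ v w, G.Adj v w → dg G v = 3 → dg G w = 3 → b v ≠ b w) {S : Finset V}
    {F : Finset (Finset V)} (hB : Bar G S F) {m : V → V} (hm : Mt G m)
    (ht : (ex m).card + S.card = F.card)
    (hx : ∀ x ∈ ex m, dg G x = 2 ∧ ∀ w, G.Adj x w → w ∈ S) : Col3 G := by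
  -- the vertices of degree three are covered
  have hc3 : ∀ v, dg G v = 3 → m v ≠ v := by
    intro v hv e
    have := (hx v (mem_ex.2 e)).1
    omega
  set R := del G m hm with hR
  have hR2 : ∀ v, dg R v ≤ 2 := by
    intro v
    by_cases h : m v = v
    · have h1 := (hx v (mem_ex.2 h)).1
      have h2 : dg R v ≤ dg G v := dg_del_le hm v
      omega
    · have h1 : dg R v + 1 = dg G v := dg_del hm v h
      have h2 := hdeg v
      omega
  obtain ⟨n, hn, hn3⟩ := cover R hR2 (univ.filter fun v => dg G v = 3) (by
    intro v hv
    rw [mem_filter] at hv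
    have h1 : dg R v + 1 = dg G v := dg_del hm v (hc3 v hv.2)
    omega) (by
    intro K hK hodd
    by_contra hno
    push Not at hno
    have hcl : ∀ v ∈ K, ∀ w, R.Adj v w → w ∈ K := by
      intro v hv w h
      by_contra hw
      exact hno v hv w hw h
    have hK3 : ∀ v ∈ K, dg G v = 3 := fun v hv => (mem_filter.1 (hK hv)).2
    have := even_of_bip R b K hcl (fun v hv w hw h => hb v w h.1 (hK3 v hv) (hK3 w hw)) (by
      intro v hv
      have h1 : dg R v + 1 = dg G v := dg_del hm v (hc3 v (hK3 v hv))
      have h2 := hK3 v hv
      omega)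
    exact (Nat.not_even_iff_odd.2 hodd) this)
  have hnG : Mt G n := ⟨hn.inv, fun v h => (hn.adj v h).1⟩
  set B := del G n hnG with hBd
  have hB2 : ∀ v, dg B v ≤ 2 := by
    intro v
    by_cases h : dg G v = 3
    · have h1 : dg B v + 1 = dg G v := dg_del hnG v (hn3 v (by simp [h]))
      omega
    · have h1 : dg B v ≤ dg G v := dg_del_le hnG v
      have h2 := hdeg v
      omega
  set Y := univ.filter (fun v => dg B v = 2) with hY
  -- no odd closed set in `B`
  have hodd2 : ∀ k : ℕ, ∀ K : Finset V, K.card ≤ k → K ⊆ Y → Odd K.card →
      ∃ v ∈ K, ∃ w, w ∉ K ∧ B.Adj v w := by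
    intro k
    induction k with
    | zero =>
      intro K h0 _ hodd
      have : K.card = 0 := by omega
      rw [this] at hodd
      exact absurd hodd (by decide)
    | succ k ih =>
      intro K hk hKY hodd
      by_contra hno
      push Not at hno
      have hcl : ∀ v ∈ K, ∀ w, B.Adj v w → w ∈ K := by
        intro v hv w h
        by_contra hw
        exact hno v hv w hw h
      have hK2 : ∀ v ∈ K, dg B v = 2 := fun v hv => (mem_filter.1 (hKY hv)).2
      have hmB : ∀ v, m v ≠ v → B.Adj v (m v) := by
        intro v hv
        refine ⟨hm.adj v hv, fun e => ?_⟩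
        have hnv : n v ≠ v := by rw [e]; exact hv
        exact (hn.adj v hnv).2 e.symm
      have hmK : ∀ v ∈ K, m v ∈ K := by
        intro v hv
        by_cases h : m v = v
        · rw [h]; exact hv
        · exact hcl v hv _ (hmB v h)
      obtain ⟨x, hxK, hxm⟩ : ∃ x ∈ K, m x = x := by
        by_contra hnn
        push Not at hnn
        exact (Nat.not_even_iff_odd.2 hodd) (even_of_inv hm.inv hmK hnn)
      obtain ⟨hx2, hxS⟩ := hx x (mem_ex.2 hxm)
      obtain ⟨a, ha⟩ : ∃ a, B.Adj x a := by
        have h1 : (nb B x).Nonempty := by
          rw [← Finset.card_pos]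
          have := hK2 x hxK
          rw [dg] at this
          omega
        obtain ⟨a, ha⟩ := h1
        exact ⟨a, mem_nb.1 ha⟩
      have haK : a ∈ K := hcl x hxK a ha
      have haS : a ∈ S := hxS a ha.1
      obtain ⟨p, hp, hpK⟩ := cover B hB2 (K.erase a)
        (fun v hv => hK2 v (mem_of_mem_erase hv)) (by
        intro K1 hK1 hodd1
        apply ih K1 _ (fun v hv => hKY (mem_of_mem_erase (hK1 hv))) hodd1
        have h1 := Finset.card_le_card hK1
        have h2 := Finset.card_erase_add_one haK
        omega)
      have hpin : ∀ v ∈ K, p v ∈ K := by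
        intro v hv
        by_cases h : p v = v
        · rw [h]; exact hv
        · exact hcl v hv _ (hp.adj v h)
      have hpa : p a = a := by
        by_contra h
        apply (Nat.not_even_iff_odd.2 hodd) (even_of_inv hp.inv hpin _)
        intro v hv
        by_cases hva : v = a
        · rw [hva]; exact h
        · exact hpK v (mem_erase.2 ⟨hva, hv⟩)
      set m' : V → V := fun v => if v ∈ K then p v else m v with hm'
      have hmt : Mt G m' := by
        constructor
        · intro v
          by_cases hv : v ∈ K
          · have h1 : m' v = p v := if_pos hv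
            rw [h1]
            have h2 : m' (p v) = p (p v) := if_pos (hpin v hv)
            rw [h2, hp.inv]
          · have h1 : m' v = m v := if_neg hv
            have h3 : m v ∉ K := fun h => hv (by have := hmK _ h; rwa [hm.inv] at this)
            rw [h1]
            have h2 : m' (m v) = m (m v) := if_neg h3
            rw [h2, hm.inv]
        · intro v h
          by_cases hv : v ∈ K
          · have h1 : m' v = p v := if_pos hv
            rw [h1] at h ⊢
            exact (hp.adj v h).1
          · have h1 : m' v = m v := if_neg hv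
            rw [h1] at h ⊢
            exact hm.adj v h
      have hex : ex m' ⊆ insert a ((ex m).erase x) := by
        intro v hv
        rw [mem_ex] at hv
        rw [mem_insert, mem_erase, mem_ex]
        by_cases hvK : v ∈ K
        · left
          by_contra hva
          have h1 : m' v = p v := if_pos hvK
          rw [h1] at hv
          exact hpK v (mem_erase.2 ⟨hva, hvK⟩) hv
        · right
          have h1 : m' v = m v := if_neg hvK
          rw [h1] at hv
          exact ⟨fun e => hvK (by rw [e]; exact hxK), hv⟩
      have hc1 : (ex m').card ≤ (ex m).card := by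
        have h1 := (Finset.card_le_card hex).trans (Finset.card_insert_le _ _)
        have h2 := Finset.card_erase_add_one (mem_ex.2 hxm : x ∈ ex m)
        omega
      have hc2 : 1 ≤ (S ∩ ex m').card := by
        rw [Nat.one_le_iff_ne_zero, Ne, Finset.card_eq_zero]
        intro h0
        have : a ∈ S ∩ ex m' := by
          rw [mem_inter, mem_ex]
          refine ⟨haS, ?_⟩
          have h1 : m' a = p a := if_pos haK
          rw [h1, hpa]
        rw [h0] at this
        simp at this
      have := berge hB hmt
      omega
  obtain ⟨q, hq, hqY⟩ := cover B hB2 Y (fun v hv => (mem_filter.1 hv).2)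
    (fun K hK hodd => hodd2 K.card K le_rfl hK hodd)
  refine ⟨fun v w => if n v = w then 0 else if q v = w then 1 else 2, ?_, ?_⟩
  · intro v w
    have h1 : n v = w ↔ n w = v := ⟨fun h => by rw [← h, hn.inv], fun h => by rw [← h, hn.inv]⟩
    have h2 : q v = w ↔ q w = v := ⟨fun h => by rw [← h, hq.inv], fun h => by rw [← h, hq.inv]⟩
    simp only [h1, h2]
  · intro v w w' hw hw' hne heq
    simp only at heq
    by_cases h1 : n v = w
    · by_cases h1' : n v = w'
      · exact hne (h1.symm.trans h1')
      · rw [if_pos h1, if_neg h1'] at heq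
        split_ifs at heq <;> exact absurd heq (by decide)
    · by_cases h1' : n v = w'
      · rw [if_neg h1, if_pos h1'] at heq
        split_ifs at heq <;> exact absurd heq (by decide)
      · rw [if_neg h1, if_neg h1'] at heq
        by_cases h2 : q v = w
        · by_cases h2' : q v = w'
          · exact hne (h2.symm.trans h2')
          · rw [if_pos h2, if_neg h2'] at heq
            exact absurd heq (by decide)
        · by_cases h2' : q v = w'
          · rw [if_neg h2, if_pos h2'] at heq
            exact absurd heq (by decide)
          · have hBw : B.Adj v w := ⟨hw, h1⟩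
            have hBw' : B.Adj v w' := ⟨hw', h1'⟩
            have hsub : ({w, w'} : Finset V) ⊆ nb B v := by
              intro z hz
              rw [mem_insert, mem_singleton] at hz
              rw [mem_nb]
              rcases hz with rfl | rfl
              · exact hBw
              · exact hBw'
            have hcard : ({w, w'} : Finset V).card = 2 := Finset.card_pair hne
            have heq2 : ({w, w'} : Finset V) = nb B v :=
              Finset.eq_of_subset_of_card_le hsub (by rw [hcard]; exact hB2 v)
            have hvY : v ∈ Y := by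
              rw [hY, mem_filter]
              refine ⟨mem_univ _, ?_⟩
              rw [dg, ← heq2, hcard]
            have hqv := hqY v hvY
            have hz : q v ∈ ({w, w'} : Finset V) := by
              rw [heq2, mem_nb]
              exact hq.adj v hqv
            rw [mem_insert, mem_singleton] at hz
            rcases hz with h | h
            · exact h2 h
            · exact h2' h

end Pool.Agent.Helper52.AH
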