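import Pool.Agent.Helper52.AH.TutteFam

/-!
# L2: matchings in graphs of maximum degree two

`H` has all degrees at most two, the vertices of `Y` have degree two, and no odd subset `K` of `Y` is closed.
Then some matching of `H` covers `Y`.

Proof. Let `W = V ⊕ V` (even cardinality) and `H'` on `W`: `inl v ~ inl w` iff `H.Adj v w` or
(`v ≠ w`, both off `Y`); `inr v ~ inr w` iff `v ≠ w`; `inl v ~ inr w` iff `v ∉ Y`. If `m'` is a perfect
matching of `H'` then `m v = w` if `m' (inl v) = inl w` and `H.Adj v w`, else `m v = v`, is a matching of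
`H` which covers `Y` (an edge of `H'` at `inl y`, `y ∈ Y`, is an edge of `H`). Otherwise `tutteFam` gives
`T`, `F` with `T.card + 2 ≤ F.card`. Let `Z = (V \ Y) ⊕ V`, a clique of `H'`. At most one member of `F`
meets `Z` (two different ones are not joined by an edge: `closed`, `off`, `disj`). Any other `O ∈ F` is
`inl '' K` with `K ⊆ Y`, `K` odd; by `sum_dg`, `2 * K.card = (lv H K).card + 2 t`, so `(lv H K).card` is
even; it is not 0 by `hodd`; so at least 2. Every edge `(v, w)` in `lv H K` has `inl w ∈ T` (`closed`). The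
sets `lv H K` (different `O`) are disjoint (first coordinates); the map `(v, w) ↦ (w, v)` sends their union
injectively into `{(w, v) | inl w ∈ T, H.Adj w v}`, which has at most `2 * T.card` elements (`hd`). So
`2 * (F.card - 1) ≤ 2 * T.card`, a contradiction.
-/

set_option autoImplicit false

namespace Pool.Agent.Helper52.AH

open Finset

universe u

/-- the part of `V ⊕ V` which is made a clique: everything except the `inl y` with `y ∈ Y` -/
def zz {V : Type u} (Y : Finset V) : V ⊕ V → Prop
  | Sum.inl v => v ∉ Y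
  | Sum.inr _ => True

/-- the auxiliary graph on `V ⊕ V` -/
def aux {V : Type u} (H : SimpleGraph V) (Y : Finset V) : SimpleGraph (V ⊕ V) where
  Adj a b := (a ≠ b ∧ zz Y a ∧ zz Y b) ∨ ∃ v w, a = Sum.inl v ∧ b = Sum.inl w ∧ H.Adj v w
  symm := by
    constructor
    intro a b h
    rcases h with ⟨h1, h2, h3⟩ | ⟨v, w, h1, h2, h3⟩
    · exact Or.inl ⟨h1.symm, h3, h2⟩
    · exact Or.inr ⟨w, v, h2, h1, h3.symm⟩
  loopless := by
    constructor
    intro a h
    rcases h with ⟨h1, _⟩ | ⟨v, w, h1, h2, h3⟩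
    · exact h1 rfl
    · rw [h1] at h2
      have h4 : v = w := Sum.inl_injective h2
      rw [h4] at h3
      exact H.loopless.irrefl _ h3

open Classical in
/-- the matching of `H` that a perfect matching of `aux H Y` induces -/
noncomputable def ind {V : Type u} (H : SimpleGraph V) (m' : V ⊕ V → V ⊕ V) (v : V) : V :=
  match m' (Sum.inl v) with
  | Sum.inl w => if H.Adj v w then w else v
  | Sum.inr _ => v

theorem ind_cases {V : Type u} (H : SimpleGraph V) (m' : V ⊕ V → V ⊕ V) (v : V) :
    (∃ w, m' (Sum.inl v) = Sum.inl w ∧ H.Adj v w ∧ ind H m' v = w) ∨ ind H m' v = v := by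
  classical
  rcases hm : m' (Sum.inl v) with w | w
  · by_cases h : H.Adj v w
    · exact Or.inl ⟨w, rfl, h, by simp [ind, hm, h]⟩
    · exact Or.inr (by simp [ind, hm, h])
  · exact Or.inr (by simp [ind, hm])

theorem ind_of {V : Type u} (H : SimpleGraph V) (m' : V ⊕ V → V ⊕ V) (v w : V)
    (h : m' (Sum.inl v) = Sum.inl w) (hv : H.Adj v w) : ind H m' v = w := by
  simp [ind, h, hv]

theorem ind_mt {V : Type u} {H : SimpleGraph V} {Y : Finset V} {m' : V ⊕ V → V ⊕ V}
    (hm : Mt (aux H Y) m') : Mt H (ind H m') := by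
  constructor
  · intro v
    rcases ind_cases H m' v with ⟨w, h1, h2, h3⟩ | h
    · rw [h3]
      apply ind_of
      · rw [← h1, hm.inv]
      · exact h2.symm
    · rw [h, h]
  · intro v hv
    rcases ind_cases H m' v with ⟨w, h1, h2, h3⟩ | h
    · rw [h3]; exact h2
    · exact absurd h hv

theorem ind_cov {V : Type u} {H : SimpleGraph V} {Y : Finset V} {m' : V ⊕ V → V ⊕ V}
    (hm : Mt (aux H Y) m') (hall : ∀ a, m' a ≠ a) (v : V) (hv : v ∈ Y) : ind H m' v ≠ v := by
  rcases hm.adj (Sum.inl v) (hall _) with ⟨_, h, _⟩ | ⟨v', w, h1, h2, h3⟩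
  · exact absurd hv h
  · have h4 : v = v' := Sum.inl_injective h1
    subst h4
    rw [ind_of H m' v w h2 h3]
    intro h
    rw [h] at h3
    exact H.loopless.irrefl _ h3

open Classical in
theorem cover {V : Type u} [Fintype V] (H : SimpleGraph V) (hd : ∀ v, dg H v ≤ 2) (Y : Finset V)
    (hY : ∀ v ∈ Y, dg H v = 2)
    (hodd : ∀ K : Finset V, K ⊆ Y → Odd K.card → ∃ v ∈ K, ∃ w, w ∉ K ∧ H.Adj v w) :
    ∃ m : V → V, Mt H m ∧ ∀ v ∈ Y, m v ≠ v := by
  by_contra hno
  have hev : Even (Fintype.card (V ⊕ V)) := by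
    rw [Fintype.card_sum]; exact ⟨_, rfl⟩
  obtain ⟨T, F, hB, hcard⟩ := tutteFam (aux H Y) hev (by
    rintro ⟨m', hm', hall⟩
    exact hno ⟨ind H m', ind_mt hm', fun v hv => ind_cov hm' hall v hv⟩)
  -- at most one member meets the clique
  have h1 : (F.filter fun O => ∃ a ∈ O, zz Y a).card ≤ 1 := by
    rw [Finset.card_le_one]
    intro O hO O' hO'
    simp only [mem_filter] at hO hO'
    obtain ⟨hO1, a, ha, za⟩ := hO
    obtain ⟨hO2, a', ha', za'⟩ := hO'
    by_cases h : a = a'
    · subst h
      exact hB.disj O hO1 O' hO2 a ha ha'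
    · rcases hB.closed O hO1 a ha a' (Or.inl ⟨h, za, za'⟩) with h2 | h2
      · exact hB.disj O hO1 O' hO2 a' h2 ha'
      · exact absurd h2 (hB.off O' hO2 a' ha')
  have h2 : (F.filter fun O => ∃ a ∈ O, zz Y a).card +
      (F.filter fun O => ¬ ∃ a ∈ O, zz Y a).card = F.card :=
    Finset.card_filter_add_card_filter_not _
  set F' := F.filter fun O => ¬ ∃ a ∈ O, zz Y a with hF'
  set K : Finset (V ⊕ V) → Finset V := fun O => univ.filter fun v => Sum.inl v ∈ O with hK
  have hin : ∀ O v, v ∈ K O ↔ Sum.inl v ∈ O := by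
    intro O v; simp [hK]
  have hmem : ∀ O ∈ F', O ∈ F ∧ ∀ a ∈ O, ∃ v ∈ Y, a = Sum.inl v := by
    intro O hO
    simp only [hF', mem_filter, not_exists, not_and] at hO
    refine ⟨hO.1, fun a ha => ?_⟩
    have := hO.2 a ha
    rcases a with v | v
    · exact ⟨v, by_contra fun h => this h, rfl⟩
    · exact absurd trivial this
  have hcK : ∀ O ∈ F', (K O).card = O.card := by
    intro O hO
    apply Finset.card_bij (fun v _ => Sum.inl v)
    · intro v hv; exact (hin O v).1 hv
    · intro v _ w _ h; exact Sum.inl_injective h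
    · intro a ha
      obtain ⟨v, _, hv⟩ := (hmem O hO).2 a ha
      exact ⟨v, (hin O v).2 (hv ▸ ha), hv.symm⟩
  have hlv : ∀ O ∈ F', ∀ p ∈ lv H (K O), Sum.inl p.2 ∈ T := by
    intro O hO p hp
    rw [mem_lv] at hp
    rcases hB.closed O (hmem O hO).1 _ ((hin O p.1).1 hp.1) (Sum.inl p.2)
      (Or.inr ⟨p.1, p.2, rfl, rfl, hp.2.2⟩) with h | h
    · exact absurd ((hin O p.2).2 h) hp.2.1
    · exact h
  have hKY : ∀ O ∈ F', K O ⊆ Y := by
    intro O hO v hv
    obtain ⟨w, hw, hvw⟩ := (hmem O hO).2 _ ((hin O v).1 hv)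
    rw [Sum.inl_injective hvw]; exact hw
  have htwo : ∀ O ∈ F', 2 ≤ (lv H (K O)).card := by
    intro O hO
    have ho : Odd (K O).card := by rw [hcK O hO]; exact hB.odd O (hmem O hO).1
    obtain ⟨v, hv, w, hw, hvw⟩ := hodd (K O) (hKY O hO) ho
    have hpos : 0 < (lv H (K O)).card := Finset.card_pos.2 ⟨(v, w), mem_lv.2 ⟨hv, hw, hvw⟩⟩
    obtain ⟨t, ht⟩ := sum_dg H (K O)
    have hs : ∑ v ∈ K O, dg H v = 2 * (K O).card := by
      rw [Finset.sum_congr rfl fun v hv => hY v (hKY O hO hv), Finset.sum_const, smul_eq_mul,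
        mul_comm]
    omega
  -- the edges into `T`
  set T' : Finset V := univ.filter fun w => Sum.inl w ∈ T with hT'
  have hT'c : T'.card ≤ T.card := by
    apply Finset.card_le_card_of_injOn (fun v => Sum.inl v)
    · intro v hv
      have : v ∈ T' := hv
      simp only [hT', mem_filter, mem_univ, true_and] at this
      exact this
    · intro v _ w _ h; exact Sum.inl_injective h
  have hP : ((T' ×ˢ univ).filter fun p : V × V => H.Adj p.1 p.2).card ≤ 2 * T'.card := by
    have : ((T' ×ˢ univ).filter fun p : V × V => H.Adj p.1 p.2).card = ∑ v ∈ T', dg H v := by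
      rw [Finset.card_filter, Finset.sum_product]
      apply Finset.sum_congr rfl
      intro v _
      rw [dg, nb, Finset.card_filter]
    rw [this, mul_comm, ← smul_eq_mul, ← Finset.sum_const]
    exact Finset.sum_le_sum fun v _ => hd v
  have hU : (F'.biUnion fun O => lv H (K O)).card ≤
      ((T' ×ˢ univ).filter fun p : V × V => H.Adj p.1 p.2).card := by
    apply Finset.card_le_card_of_injOn Prod.swap
    · intro p hp
      have hp' : p ∈ F'.biUnion fun O => lv H (K O) := hp
      rw [Finset.mem_biUnion] at hp'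
      obtain ⟨O, hO, hpO⟩ := hp'
      have h3 := hlv O hO p hpO
      rw [mem_lv] at hpO
      simp only [Finset.coe_filter, mem_product, mem_univ, and_true, Set.mem_ofPred_eq, Prod.fst_swap,
        Prod.snd_swap, hT', mem_filter, true_and]
      exact ⟨h3, hpO.2.2.symm⟩
    · intro p _ q _ h; exact Prod.swap_injective h
  have hD : (F'.biUnion fun O => lv H (K O)).card = ∑ O ∈ F', (lv H (K O)).card := by
    apply Finset.card_biUnion
    intro O hO O' hO' hne
    rw [Function.onFun, Finset.disjoint_left]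
    intro p hp hq
    rw [mem_lv] at hp hq
    exact hne (hB.disj O (hmem O hO).1 O' (hmem O' hO').1 _ ((hin O p.1).1 hp.1)
      ((hin O' p.1).1 hq.1))
  have hS : F'.card * 2 ≤ ∑ O ∈ F', (lv H (K O)).card := by
    rw [← smul_eq_mul, ← Finset.sum_const]
    exact Finset.sum_le_sum htwo
  omega

end Pool.Agent.Helper52.AH
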