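import Mathlib

/-!
# Definitions for the theorem on 3-edge-colourings of subcubic graphs (MP_028d9b_co)

Matchings are involutions `m : V → V`; a vertex is exposed if `m v = v`. `Bar G S F`: the sets in `F`
are disjoint, odd, off `S`, and have all their neighbours in themselves or in `S`.
-/

set_option autoImplicit false

namespace Pool.Agent.Helper52.AH

open Finset

universe u

/-- a matching of `G` as an involution; `m v = v` means that `v` is not covered -/
structure Mt {V : Type u} (G : SimpleGraph V) (m : V → V) : Prop where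
  inv : ∀ v, m (m v) = v
  adj : ∀ v, m v ≠ v → G.Adj v (m v)

/-- `F` is a family of disjoint odd sets of vertices off `S`, each with all its neighbours in itself
or in `S` -/
structure Bar {V : Type u} (G : SimpleGraph V) (S : Finset V) (F : Finset (Finset V)) : Prop where
  odd : ∀ O ∈ F, Odd O.card
  disj : ∀ O ∈ F, ∀ O' ∈ F, ∀ v, v ∈ O → v ∈ O' → O = O'
  off : ∀ O ∈ F, ∀ v ∈ O, v ∉ S
  closed : ∀ O ∈ F, ∀ v ∈ O, ∀ w, G.Adj v w → w ∈ O ∨ w ∈ S

/-- a pair `(S, F)` with `F.card - S.card` maximal and, among these, `S.card` maximal -/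
structure MaxBar {V : Type u} (G : SimpleGraph V) (S : Finset V) (F : Finset (Finset V)) : Prop where
  bar : Bar G S F
  val : ∀ S' F', Bar G S' F' → F'.card + S.card ≤ F.card + S'.card
  big : ∀ S' F', Bar G S' F' → F'.card + S.card = F.card + S'.card → S'.card ≤ S.card

open Classical in
/-- the neighbours of `v` -/
noncomputable def nb {V : Type u} [Fintype V] (G : SimpleGraph V) (v : V) : Finset V :=
  univ.filter fun w => G.Adj v w

/-- the degree of `v` -/
noncomputable def dg {V : Type u} [Fintype V] (G : SimpleGraph V) (v : V) : ℕ := (nb G v).card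

open Classical in
/-- the edges which leave `U`, as pairs (end in `U`, end off `U`) -/
noncomputable def lv {V : Type u} [Fintype V] (G : SimpleGraph V) (U : Finset V) : Finset (V × V) :=
  univ.filter fun p => p.1 ∈ U ∧ p.2 ∉ U ∧ G.Adj p.1 p.2

open Classical in
/-- the exposed vertices -/
noncomputable def ex {V : Type u} [Fintype V] (m : V → V) : Finset V := univ.filter fun v => m v = v

/-- `G` has a proper edge colouring with three colours -/
def Col3 {V : Type u} (G : SimpleGraph V) : Prop :=
  ∃ c : V → V → Fin 3, (∀ v w, c v w = c w v) ∧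
    ∀ v w w', G.Adj v w → G.Adj v w' → w ≠ w' → c v w ≠ c v w'

theorem mem_nb {V : Type u} [Fintype V] {G : SimpleGraph V} {v w : V} : w ∈ nb G v ↔ G.Adj v w := by
  simp [nb]

theorem mem_lv {V : Type u} [Fintype V] {G : SimpleGraph V} {U : Finset V} {p : V × V} :
    p ∈ lv G U ↔ p.1 ∈ U ∧ p.2 ∉ U ∧ G.Adj p.1 p.2 := by
  simp [lv]

theorem mem_ex {V : Type u} [Fintype V] {m : V → V} {v : V} : v ∈ ex m ↔ m v = v := by
  simp [ex]

open Classical in
theorem sum_dg {V : Type u} [Fintype V] (G : SimpleGraph V) (K : Finset V) :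
    ∃ t, ∑ v ∈ K, dg G v = (lv G K).card + 2 * t := by
  -- the pairs of adjacent vertices inside `K` come in twos
  have h1 : ∑ v ∈ K, dg G v = ((K ×ˢ univ).filter fun p : V × V => G.Adj p.1 p.2).card := by
    rw [Finset.card_filter, Finset.sum_product]
    apply Finset.sum_congr rfl
    intro v _
    rw [dg, nb, Finset.card_filter]
  have h2 : ((K ×ˢ univ).filter fun p : V × V => G.Adj p.1 p.2) =
      lv G K ∪ ((K ×ˢ K).filter fun p : V × V => G.Adj p.1 p.2) := by
    ext p
    simp only [mem_filter, mem_product, mem_univ, and_true, mem_union, mem_lv]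
    tauto
  have h3 : Disjoint (lv G K) ((K ×ˢ K).filter fun p : V × V => G.Adj p.1 p.2) := by
    rw [Finset.disjoint_left]
    intro p hp hq
    simp only [mem_filter, mem_product, mem_lv] at hp hq
    tauto
  have h4 : Even ((K ×ˢ K).filter fun p : V × V => G.Adj p.1 p.2).card := by
    have h5 : ∑ p ∈ (K ×ˢ K).filter (fun p : V × V => G.Adj p.1 p.2), (1 : ZMod 2) = 0 := by
      apply Finset.sum_involution (fun p _ => p.swap)
      · intro p _
        decide
      · intro p hp _ h
        simp only [mem_filter, mem_product] at hp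
        have := congrArg Prod.fst h
        simp only [Prod.fst_swap] at this
        rw [this] at hp
        exact G.loopless.irrefl _ hp.2
      · intro p _
        simp
      case g_mem =>
        intro p hp
        simp only [mem_filter, mem_product, Prod.fst_swap, Prod.snd_swap] at hp ⊢
        exact ⟨⟨hp.1.2, hp.1.1⟩, hp.2.symm⟩
    rw [Finset.sum_const, nsmul_eq_mul, mul_one, ZMod.natCast_eq_zero_iff_even] at h5
    exact h5
  obtain ⟨t, ht⟩ := h4
  exact ⟨t, by rw [h1, h2, Finset.card_union_of_disjoint h3, ht]; ring⟩

end Pool.Agent.Helper52.AH
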