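import Pool.Agent.Helper52.AH.Main

/-!
# From the statement in terms of Mathlib to the induction
-/

set_option autoImplicit false

namespace Pool.Agent.Helper52.AH

open Finset

universe u

theorem closed_reach {V : Type u} {H : SimpleGraph V} {X : Finset V}
    (hX : ∀ v w, v ∈ X → H.Adj v w → w ∈ X) {x y : V} (h : H.Reachable x y) (hx : x ∈ X) :
    y ∈ X := by
  obtain ⟨p⟩ := h
  induction p with
  | nil => exact hx
  | cons hadj _ ih => exact ih (hX _ _ hx hadj)

open Classical in
theorem twoCon_of {V : Type u} [Fintype V] {G : SimpleGraph V} (hc : G.Connected)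
    (hb : ∀ e, ¬ G.IsBridge e) : TwoCon G := by
  intro X hX hXu
  obtain ⟨x, hx⟩ := hX
  obtain ⟨y, hy⟩ : ∃ y, y ∉ X := by
    by_contra h
    push Not at h
    exact hXu (Finset.eq_univ_iff_forall.2 h)
  by_contra hlt
  rcases Nat.lt_or_ge (lv G X).card 1 with h0 | h1
  · have h0' : lv G X = ∅ := by
      rw [← Finset.card_eq_zero]
      omega
    apply hy
    apply closed_reach (H := G) _ (hc.preconnected x y) hx
    intro v w hv hadj
    by_contra hw
    have : (v, w) ∈ lv G X := mem_lv.2 ⟨hv, hw, hadj⟩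
    rw [h0'] at this
    simp at this
  · have h1' : (lv G X).card = 1 := by omega
    obtain ⟨p, hp⟩ := Finset.card_eq_one.1 h1'
    have hpm : p ∈ lv G X := by rw [hp]; exact mem_singleton_self p
    rw [mem_lv] at hpm
    have hnb := hb s(p.1, p.2)
    rw [SimpleGraph.isBridge_iff, not_not] at hnb
    apply hpm.2.1
    apply closed_reach _ hnb hpm.1
    intro v w hv hadj
    by_contra hw
    rw [SimpleGraph.deleteEdges_adj] at hadj
    have : (v, w) ∈ lv G X := mem_lv.2 ⟨hv, hw, hadj.1⟩
    rw [hp, mem_singleton] at this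
    apply hadj.2
    rw [← this]
    exact Set.mem_singleton _

open Classical in
theorem nf_of {V : Type u} [Fintype V] {G : SimpleGraph V} (v : V)
    (hodd : ¬ Even (Fintype.card V))
    (hv : ∀ M : G.Subgraph, M.IsMatching → M.verts ≠ {v}ᶜ) : NF G := by
  set W := {w : V // w ≠ v} with hW
  set H : SimpleGraph W := G.comap Subtype.val with hH
  have hcW : Fintype.card W + 1 = Fintype.card V := by
    rw [Fintype.card_subtype]
    have h1 : (univ.filter fun w => w ≠ v) = univ.erase v := by
      ext w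
      simp
    rw [h1, Finset.card_erase_add_one (mem_univ v), card_univ]
  have hev : Even (Fintype.card W) := by
    rw [← hcW, Nat.not_even_iff_odd] at hodd
    by_contra h
    rw [Nat.not_even_iff_odd] at h
    exact (Nat.not_even_iff_odd.2 hodd) h.add_one
  obtain ⟨T, F, hB, hTF⟩ := tutteFam H hev (by
    rintro ⟨m, hm, hmv⟩
    let M : G.Subgraph :=
      { verts := {v}ᶜ
        Adj := fun a b => ∃ (ha : a ≠ v) (hb : b ≠ v), m ⟨a, ha⟩ = ⟨b, hb⟩
        adj_sub := by
          rintro a b ⟨ha, hb, h⟩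
          have h1 := hm.adj ⟨a, ha⟩ (hmv _)
          rw [h] at h1
          exact h1
        edge_vert := by
          rintro a b ⟨ha, hb, h⟩
          exact ha
        symm := ⟨by
          rintro a b ⟨ha, hb, h⟩
          exact ⟨hb, ha, by rw [← h, hm.inv]⟩⟩ }
    apply hv M _ rfl
    intro a ha
    have ha' : a ≠ v := ha
    refine ⟨(m ⟨a, ha'⟩).1, ⟨ha', (m ⟨a, ha'⟩).2, rfl⟩, ?_⟩
    rintro b ⟨_, hb, h⟩
    rw [h])
  set f : W ↪ V := Function.Embedding.subtype _ with hf
  have hinj : Function.Injective (fun O : Finset W => O.map f) := Finset.map_injective f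
  refine ⟨insert v (T.map f), F.image (fun O => O.map f), ⟨?_, ?_, ?_, ?_⟩,
    ⟨v, mem_insert_self _ _⟩, ?_⟩
  · intro O hO
    rw [mem_image] at hO
    obtain ⟨O', hO', rfl⟩ := hO
    rw [card_map]
    exact hB.odd O' hO'
  · intro O hO Q hQ w hw hw'
    rw [mem_image] at hO hQ
    obtain ⟨O', hO', rfl⟩ := hO
    obtain ⟨Q', hQ', rfl⟩ := hQ
    rw [mem_map] at hw hw'
    obtain ⟨a, ha, hae⟩ := hw
    obtain ⟨c, hc, hce⟩ := hw'
    have : a = c := f.injective (hae.trans hce.symm)
    rw [hB.disj O' hO' Q' hQ' a ha (by rw [this]; exact hc)]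
  · intro O hO w hw h
    rw [mem_image] at hO
    obtain ⟨O', hO', rfl⟩ := hO
    rw [mem_map] at hw
    obtain ⟨a, ha, rfl⟩ := hw
    rw [mem_insert, mem_map] at h
    rcases h with h | ⟨c, hc, hce⟩
    · exact a.2 h
    · exact hB.off O' hO' a ha (by rw [← f.injective hce]; exact hc)
  · intro O hO w hw z hz
    rw [mem_image] at hO
    obtain ⟨O', hO', rfl⟩ := hO
    rw [mem_map] at hw
    obtain ⟨a, ha, rfl⟩ := hw
    by_cases hzv : z = v
    · right
      rw [hzv]
      exact mem_insert_self _ _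
    · rcases hB.closed O' hO' a ha ⟨z, hzv⟩ hz with h | h
      · left
        exact mem_map.2 ⟨_, h, rfl⟩
      · right
        exact mem_insert_of_mem (mem_map.2 ⟨_, h, rfl⟩)
  · rw [Finset.card_image_of_injective _ hinj, Finset.card_insert_of_notMem, card_map]
    · have := Nat.mod_lt (Fintype.card V) (by norm_num : 0 < 2)
      omega
    · intro h
      rw [mem_map] at h
      obtain ⟨a, _, hae⟩ := h
      exact a.2 hae

theorem dg_eq {V : Type u} [Fintype V] {G : SimpleGraph V} [DecidableRel G.Adj] (v : V) :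
    dg G v = G.degree v := by
  classical
  rw [dg, ← SimpleGraph.card_neighborFinset_eq_degree]
  congr 1
  ext w
  rw [mem_nb, SimpleGraph.mem_neighborFinset]

open Classical in
theorem final {V : Type u} [Fintype V] (G : SimpleGraph V) [DecidableRel G.Adj]
    (hc : G.Connected) (hd : ∀ v, G.degree v ≤ 3) (hbr : ∀ e, ¬ G.IsBridge e)
    (hb : ∃ b : V → Bool, ∀ v w, G.Adj v w → G.degree v = 3 → G.degree w = 3 → b v ≠ b w)
    (hn : Even (Fintype.card V) ∨ ∃ v, ∀ M : G.Subgraph, M.IsMatching → M.verts ≠ {v}ᶜ) :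
    ∃ c : Sym2 V → Fin 3, ∀ u v w, G.Adj u v → G.Adj u w → v ≠ w → c s(u, v) ≠ c s(u, w) := by
  obtain ⟨b, hb⟩ := hb
  obtain ⟨x⟩ := hc.nonempty
  have hnf : NF G := by
    by_cases hev : Even (Fintype.card V)
    · exact nf_even G hev x
    · rcases hn with h | ⟨v, hv⟩
      · exact absurd h hev
      · exact nf_of v hev hv
  obtain ⟨c, hcs, hcp⟩ := main_ind (Fintype.card V) V G le_rfl
    (fun v => by rw [dg_eq]; exact hd v) (twoCon_of hc hbr) b
    (fun v w h h1 h2 => hb v w h (by rw [← dg_eq]; exact h1) (by rw [← dg_eq]; exact h2)) hnf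
  refine ⟨Sym2.lift ⟨c, hcs⟩, ?_⟩
  intro u v w h1 h2 hne
  exact hcp u v w h1 h2 hne

end Pool.Agent.Helper52.AH
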