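import Pool.Agent.Helper52.AH.MaxPair

/-!
# L5: a matching which misses only vertices of degree two with both neighbours in `S`

Proof. `h.val ∅ ∅` gives `S.card ≤ F.card`; let `d = F.card - S.card`. Hall's theorem
(`Finset.all_card_le_biUnion_card_iff_exists_injective`, index type `{O // O ∈ F}`) with values in
`V ⊕ Fin d`: `O` may go to `inl s` if `s ∈ S` has a neighbour in `O`, and to `inr i` if `(lv G O).card = 2`.
Hall's condition for `X ⊆ F`, `N(X) ⊆ S` the vertices of `S` with a neighbour in a member of `X`: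
* `Bar G N(X) X` holds (closed: a neighbour of `v ∈ O ∈ X` off `O` is in `S`, so in `N(X)`), so `h.val` gives
  `X.card ≤ N(X).card + d`. This settles the case where some `O ∈ X` has `(lv G O).card = 2`.
* otherwise `(lv G O).card ≥ 3` for all `O ∈ X` (`h2`); the edges of the `lv G O`, `O ∈ X`, are disjoint and end
  in `N(X)`, each vertex of which has degree at most 3: `3 X.card ≤ 3 N(X).card`.
The injection `f` is a bijection onto `S ⊕ Fin d` (cardinalities). For `O` with `f O = inl s` choose a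
neighbour `v_O ∈ O` of `s` and put `m s = v_O`, `m v_O = s`, and on `O \ {v_O}` the matching of `h.near`. For
`O` with `f O = inr i` we have `(lv G O).card = 2`, and `O = {x}` by `hs` (if `F.card = S.card` there is no such
`O`, as `Fin 0` is empty), `m x = x`; then `dg G x = 2` since `lv G {x}` consists of the pairs `(x, w)`, and
`N(x) ⊆ S` by `closed`. By `h.all` this defines `m` everywhere. The exposed vertices are these `x`, so
`(ex m).card = d`.
-/

set_option autoImplicit false

namespace Pool.Agent.Helper52.AH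

open Finset

universe u

open Classical in
/-- the places where `O` may go -/
noncomputable def plc {V : Type u} [Fintype V] (G : SimpleGraph V) (S : Finset V) (d : ℕ)
    (O : Finset V) : Finset (V ⊕ Fin d) :=
  univ.filter fun a => Sum.elim (fun s => s ∈ S ∧ ∃ v ∈ O, G.Adj v s)
    (fun _ => (lv G O).card = 2) a

theorem mem_plc_inl {V : Type u} [Fintype V] {G : SimpleGraph V} {S : Finset V} {d : ℕ}
    {O : Finset V} {s : V} :
    (Sum.inl s : V ⊕ Fin d) ∈ plc G S d O ↔ s ∈ S ∧ ∃ v ∈ O, G.Adj v s := by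
  simp [plc]

theorem mem_plc_inr {V : Type u} [Fintype V] {G : SimpleGraph V} {S : Finset V} {d : ℕ}
    {O : Finset V} {i : Fin d} :
    (Sum.inr i : V ⊕ Fin d) ∈ plc G S d O ↔ (lv G O).card = 2 := by
  simp [plc]

theorem bar_empty {V : Type u} (G : SimpleGraph V) : Bar G ∅ ∅ where
  odd := by simp
  disj := by simp
  off := by simp
  closed := by simp

theorem MaxBar.le_card {V : Type u} {G : SimpleGraph V} {S : Finset V} {F : Finset (Finset V)}
    (h : MaxBar G S F) : S.card ≤ F.card := by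
  have := h.val ∅ ∅ (bar_empty G)
  simpa using this

open Classical in
/-- the vertices of `S` with a neighbour in a member of `X` -/
noncomputable def nbX {V : Type u} (G : SimpleGraph V) (S : Finset V) (X : Finset (Finset V)) :
    Finset V := S.filter fun s => ∃ O ∈ X, ∃ v ∈ O, G.Adj v s

theorem mem_nbX {V : Type u} {G : SimpleGraph V} {S : Finset V} {X : Finset (Finset V)} {s : V} :
    s ∈ nbX G S X ↔ s ∈ S ∧ ∃ O ∈ X, ∃ v ∈ O, G.Adj v s := by
  simp [nbX]

theorem bar_sub {V : Type u} {G : SimpleGraph V} {S : Finset V} {F X : Finset (Finset V)}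
    (h : Bar G S F) (hX : X ⊆ F) : Bar G (nbX G S X) X where
  odd := fun O hO => h.odd O (hX hO)
  disj := fun O hO O' hO' => h.disj O (hX hO) O' (hX hO')
  off := fun O hO v hv hvn => h.off O (hX hO) v hv (mem_nbX.1 hvn).1
  closed := fun O hO v hv w hw => by
    rcases h.closed O (hX hO) v hv w hw with h1 | h1
    · exact Or.inl h1
    · exact Or.inr (mem_nbX.2 ⟨h1, O, hO, v, hv, hw⟩)

theorem card_three {V : Type u} [Fintype V] {G : SimpleGraph V} (hdeg : ∀ v, dg G v ≤ 3)
    {S : Finset V} {F X : Finset (Finset V)} (h : Bar G S F) (hX : X ⊆ F)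
    (h3 : ∀ O ∈ X, 3 ≤ (lv G O).card) : X.card ≤ (nbX G S X).card := by
  classical
  have h4 : (X.biUnion (lv G)).card = ∑ O ∈ X, (lv G O).card := by
    apply Finset.card_biUnion
    intro O hO O' hO' hne
    refine Finset.disjoint_left.2 ?_
    intro p hp hp'
    rw [mem_lv] at hp hp'
    exact hne (h.disj O (hX hO) O' (hX hO') p.1 hp.1 hp'.1)
  have h5 : X.card * 3 ≤ ∑ O ∈ X, (lv G O).card := by
    rw [← smul_eq_mul]
    exact Finset.card_nsmul_le_sum X _ 3 h3
  have h6 : (X.biUnion (lv G)).card ≤ 3 * (nbX G S X).card := by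
    apply Finset.card_le_mul_card_image_of_maps_to (f := fun p : V × V => p.2)
    · intro p hp
      obtain ⟨O, hO, hp⟩ := Finset.mem_biUnion.1 hp
      rw [mem_lv] at hp
      rcases h.closed O (hX hO) p.1 hp.1 p.2 hp.2.2 with h7 | h7
      · exact absurd h7 hp.2.1
      · exact mem_nbX.2 ⟨h7, O, hO, p.1, hp.1, hp.2.2⟩
    · intro s _
      refine le_trans ?_ (hdeg s)
      rw [dg]
      apply Finset.card_le_card_of_injOn (fun p : V × V => p.1)
      · intro p hp
        rw [Finset.mem_coe, Finset.mem_filter] at hp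
        obtain ⟨hp, hps⟩ := hp
        obtain ⟨O, hO, hp⟩ := Finset.mem_biUnion.1 hp
        rw [mem_lv] at hp
        rw [Finset.mem_coe, mem_nb, ← hps]
        exact hp.2.2.symm
      · intro p hp q hq hpq
        rw [Finset.mem_coe, Finset.mem_filter] at hp hq
        exact Prod.ext hpq (hp.2.trans hq.2.symm)
  omega

theorem hall_cond {V : Type u} [Fintype V] {G : SimpleGraph V} (hdeg : ∀ v, dg G v ≤ 3)
    {S : Finset V} {F : Finset (Finset V)} (h : MaxBar G S F) (h2 : ∀ O ∈ F, 2 ≤ (lv G O).card)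
    (d : ℕ) (hd : d = F.card - S.card) :
    ∃ f : {O // O ∈ F} → V ⊕ Fin d, Function.Injective f ∧ ∀ O, f O ∈ plc G S d O.1 := by
  classical
  rw [← Finset.all_card_le_biUnion_card_iff_exists_injective
    (fun O : {O // O ∈ F} => plc G S d O.1)]
  intro X
  have hle := h.le_card
  set X' : Finset (Finset V) := X.image Subtype.val with hX'
  have hcard : X'.card = X.card := Finset.card_image_of_injective X Subtype.val_injective
  have hsub : X' ⊆ F := by
    intro O hO
    rw [hX', Finset.mem_image] at hO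
    obtain ⟨O', _, rfl⟩ := hO
    exact O'.2
  have hb := h.val _ _ (bar_sub h.bar hsub)
  have hmem : ∀ {O : Finset V}, O ∈ X' → ∃ O' ∈ X, O'.1 = O := fun {O} hO => by
    rw [hX', Finset.mem_image] at hO
    exact hO
  by_cases hc : ∃ O ∈ X', (lv G O).card = 2
  · obtain ⟨O, hO, hO2⟩ := hc
    have h3 : ((nbX G S X').disjSum (univ : Finset (Fin d))) ⊆
        X.biUnion fun O : {O // O ∈ F} => plc G S d O.1 := by
      intro a ha
      rw [Finset.mem_biUnion]
      rcases Finset.mem_disjSum.1 ha with ⟨s, hs, rfl⟩ | ⟨i, _, rfl⟩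
      · obtain ⟨hsS, O', hO', v, hv, hvs⟩ := mem_nbX.1 hs
        obtain ⟨O'', hO'', rfl⟩ := hmem hO'
        exact ⟨O'', hO'', mem_plc_inl.2 ⟨hsS, v, hv, hvs⟩⟩
      · obtain ⟨O'', hO'', rfl⟩ := hmem hO
        exact ⟨O'', hO'', mem_plc_inr.2 hO2⟩
    have h4 := Finset.card_le_card h3
    rw [Finset.card_disjSum, Finset.card_univ, Fintype.card_fin] at h4
    omega
  · have h3 : ∀ O ∈ X', 3 ≤ (lv G O).card := by
      intro O hO
      have h4 := h2 O (hsub hO)
      have h5 : (lv G O).card ≠ 2 := fun h6 => hc ⟨O, hO, h6⟩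
      omega
    have h4 := card_three hdeg h.bar hsub h3
    have h5 : ((nbX G S X').map ⟨Sum.inl, Sum.inl_injective⟩ : Finset (V ⊕ Fin d)) ⊆
        X.biUnion fun O : {O // O ∈ F} => plc G S d O.1 := by
      intro a ha
      rw [Finset.mem_biUnion]
      rw [Finset.mem_map] at ha
      obtain ⟨s, hs, rfl⟩ := ha
      obtain ⟨hsS, O', hO', v, hv, hvs⟩ := mem_nbX.1 hs
      obtain ⟨O'', hO'', rfl⟩ := hmem hO'
      exact ⟨O'', hO'', mem_plc_inl.2 ⟨hsS, v, hv, hvs⟩⟩
    have h6 := Finset.card_le_card h5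
    rw [Finset.card_map] at h6
    omega

theorem card_lv_singleton {V : Type u} [Fintype V] (G : SimpleGraph V) (x : V) :
    (lv G {x}).card = dg G x := by
  classical
  have h1 : lv G {x} = (nb G x).image fun w => (x, w) := by
    ext p
    rw [mem_lv, Finset.mem_image]
    constructor
    · rintro ⟨h1, _, h3⟩
      rw [Finset.mem_singleton] at h1
      exact ⟨p.2, mem_nb.2 (h1 ▸ h3), Prod.ext h1.symm rfl⟩
    · rintro ⟨w, hw, rfl⟩
      rw [mem_nb] at hw
      exact ⟨Finset.mem_singleton_self x, fun h2 => hw.ne (Finset.mem_singleton.1 h2).symm, hw⟩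
  rw [h1, dg]
  apply Finset.card_image_of_injective
  intro a b hab
  exact congrArg Prod.snd hab

theorem exists_tight {V : Type u} [Fintype V] {G : SimpleGraph V} (hdeg : ∀ v, dg G v ≤ 3)
    {S : Finset V} {F : Finset (Finset V)} (h : MaxBar G S F) (h2 : ∀ O ∈ F, 2 ≤ (lv G O).card)
    (hs : F.card = S.card ∨ ∀ O ∈ F, (lv G O).card = 2 → ∃ x, O = {x}) :
    ∃ m : V → V, Mt G m ∧ (ex m).card + S.card = F.card ∧
      ∀ x ∈ ex m, dg G x = 2 ∧ ∀ w, G.Adj x w → w ∈ S := by
  classical
  obtain ⟨d, hd⟩ : ∃ d, d = F.card - S.card := ⟨_, rfl⟩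
  obtain ⟨f, hf, hfm⟩ := hall_cond hdeg h h2 d hd
  have hle := h.le_card
  -- the choices for each `O`
  have hch : ∀ O : {O // O ∈ F}, ∃ v ∈ O.1, ∃ m : V → V, Mt G m ∧
      (∀ w, w ∈ O.1 → w ≠ v → m w ≠ w ∧ m w ∈ O.1) ∧ m v = v ∧
      (∀ s, f O = Sum.inl s → G.Adj v s) ∧
      (∀ i, f O = Sum.inr i → O.1 = {v} ∧ (lv G O.1).card = 2) := by
    intro O
    have hO := hfm O
    rcases hfO : f O with s | i
    · rw [hfO, mem_plc_inl] at hO
      obtain ⟨_, v, hv, hvs⟩ := hO
      obtain ⟨m, hm, hm1, _, hm3⟩ := h.near O.2 hv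
      refine ⟨v, hv, m, hm, hm1, hm3, ?_, ?_⟩
      · intro s' hs'
        rw [← Sum.inl_injective hs']
        exact hvs
      · intro i hi
        exact absurd hi (by simp)
    · rw [hfO, mem_plc_inr] at hO
      have hs' : ∃ x, O.1 = {x} := by
        rcases hs with h3 | h3
        · exfalso
          have : d = 0 := by omega
          rw [this] at i
          exact i.elim0
        · exact h3 O.1 O.2 hO
      obtain ⟨x, hx⟩ := hs'
      have hxO : x ∈ O.1 := by rw [hx]; exact Finset.mem_singleton_self x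
      obtain ⟨m, hm, hm1, _, hm3⟩ := h.near O.2 hxO
      refine ⟨x, hxO, m, hm, hm1, hm3, ?_, ?_⟩
      · intro s hs
        exact absurd hs (by simp)
      · intro j _
        exact ⟨hx, hO⟩
  choose vv hvv mm hmm hmm1 hmm2 hinl hinr using hch
  -- `f` is onto
  have hsurj : ∀ a ∈ (S.disjSum (univ : Finset (Fin d))), ∃ O, f O = a := by
    have h3 : (univ.image f) = S.disjSum (univ : Finset (Fin d)) := by
      apply Finset.eq_of_subset_of_card_le
      · intro a ha
        rw [Finset.mem_image] at ha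
        obtain ⟨O, _, rfl⟩ := ha
        have hO := hfm O
        rcases hfO : f O with s | i
        · rw [hfO, mem_plc_inl] at hO
          exact Finset.inl_mem_disjSum.2 hO.1
        · exact Finset.inr_mem_disjSum.2 (Finset.mem_univ i)
      · rw [Finset.card_image_of_injective _ hf, Finset.card_disjSum, Finset.card_univ,
          Finset.card_univ, Fintype.card_fin, Fintype.card_coe]
        omega
    intro a ha
    rw [← h3, Finset.mem_image] at ha
    obtain ⟨O, _, hO⟩ := ha
    exact ⟨O, hO⟩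
  have hsS : ∀ s ∈ S, ∃ O, f O = Sum.inl s := fun s hs' =>
    hsurj _ (Finset.inl_mem_disjSum.2 hs')
  have hsI : ∀ i : Fin d, ∃ O, f O = Sum.inr i := fun i =>
    hsurj _ (Finset.inr_mem_disjSum.2 (Finset.mem_univ i))
  have hfS : ∀ O s, f O = Sum.inl s → s ∈ S := by
    intro O s hO
    have h3 := hfm O
    rw [hO, mem_plc_inl] at h3
    exact h3.1
  have huniq : ∀ (O O' : {O // O ∈ F}) (v : V), v ∈ O.1 → v ∈ O'.1 → O = O' := by
    intro O O' v hv hv'
    exact Subtype.ext (h.bar.disj O.1 O.2 O'.1 O'.2 v hv hv')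
  have hoff : ∀ (O : {O // O ∈ F}) (v : V), v ∈ O.1 → v ∉ S := fun O v hv =>
    h.bar.off O.1 O.2 v hv
  -- the matching
  let m : V → V := fun v =>
    if h3 : ∃ O : {O // O ∈ F}, v ∈ O.1 then
      if v = vv h3.choose then Sum.elim (fun s => s) (fun _ => v) (f h3.choose)
      else mm h3.choose v
    else if h4 : ∃ O : {O // O ∈ F}, f O = Sum.inl v then vv h4.choose else v
  have hA : ∀ (O : {O // O ∈ F}) (v : V), v ∈ O.1 → v ≠ vv O → m v = mm O v := by
    intro O v hv hne
    have h3 : ∃ O : {O // O ∈ F}, v ∈ O.1 := ⟨O, hv⟩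
    have h4 : h3.choose = O := huniq _ _ v h3.choose_spec hv
    simp only [m, dif_pos h3, h4, if_neg hne]
  have hB : ∀ (O : {O // O ∈ F}), m (vv O) = Sum.elim (fun s => s) (fun _ => vv O) (f O) := by
    intro O
    have h3 : ∃ O' : {O // O ∈ F}, vv O ∈ O'.1 := ⟨O, hvv O⟩
    have h4 : h3.choose = O := huniq _ _ (vv O) h3.choose_spec (hvv O)
    simp only [m, dif_pos h3, h4, if_true]
  have hB1 : ∀ (O : {O // O ∈ F}) (s : V), f O = Sum.inl s → m (vv O) = s := by
    intro O s hO
    rw [hB, hO, Sum.elim_inl]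
  have hB2 : ∀ (O : {O // O ∈ F}) (i : Fin d), f O = Sum.inr i → m (vv O) = vv O := by
    intro O i hO
    rw [hB, hO, Sum.elim_inr]
  have hD : ∀ (O : {O // O ∈ F}) (s : V), f O = Sum.inl s → m s = vv O := by
    intro O s hO
    have h3 : ¬ ∃ O' : {O // O ∈ F}, s ∈ O'.1 := by
      rintro ⟨O', hO'⟩
      exact hoff O' s hO' (hfS O s hO)
    have h4 : ∃ O' : {O // O ∈ F}, f O' = Sum.inl s := ⟨O, hO⟩
    have h5 : h4.choose = O := hf (h4.choose_spec.trans hO.symm)
    simp only [m, dif_neg h3, dif_pos h4, h5]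
  have hcase : ∀ v, (∃ O : {O // O ∈ F}, f O = Sum.inl v) ∨
      (∃ O : {O // O ∈ F}, v ∈ O.1 ∧ v ≠ vv O) ∨ (∃ O : {O // O ∈ F}, v = vv O) := by
    intro v
    rcases h.all v with h3 | ⟨O, hO, hv⟩
    · exact Or.inl (hsS v h3)
    · by_cases h4 : v = vv ⟨O, hO⟩
      · exact Or.inr (Or.inr ⟨⟨O, hO⟩, h4⟩)
      · exact Or.inr (Or.inl ⟨⟨O, hO⟩, hv, h4⟩)
  have hMt : Mt G m := by
    constructor
    · intro v
      rcases hcase v with ⟨O, hO⟩ | ⟨O, hv, hne⟩ | ⟨O, rfl⟩
      · rw [hD O v hO, hB1 O v hO]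
      · rw [hA O v hv hne]
        have h3 := (hmm1 O v hv hne).2
        have h4 : mm O v ≠ vv O := by
          intro h5
          have h6 := (hmm O).inv v
          rw [h5, hmm2 O] at h6
          exact hne h6.symm
        rw [hA O _ h3 h4, (hmm O).inv v]
      · rcases hfO : f O with s | i
        · rw [hB1 O s hfO, hD O s hfO]
        · rw [hB2 O i hfO, hB2 O i hfO]
    · intro v hv'
      rcases hcase v with ⟨O, hO⟩ | ⟨O, hv, hne⟩ | ⟨O, rfl⟩
      · rw [hD O v hO]
        exact (hinl O v hO).symm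
      · rw [hA O v hv hne]
        exact (hmm O).adj v (hmm1 O v hv hne).1
      · rcases hfO : f O with s | i
        · rw [hB1 O s hfO]
          exact hinl O s hfO
        · exact absurd (hB2 O i hfO) hv'
  have hex : ∀ x, m x = x → ∃ (O : {O // O ∈ F}) (i : Fin d), f O = Sum.inr i ∧ x = vv O := by
    intro x hx
    rcases hcase x with ⟨O, hO⟩ | ⟨O, hv, hne⟩ | ⟨O, rfl⟩
    · exfalso
      rw [hD O x hO] at hx
      exact hoff O (vv O) (hvv O) (hx ▸ hfS O x hO)
    · exfalso
      rw [hA O x hv hne] at hx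
      exact (hmm1 O x hv hne).1 hx
    · rcases hfO : f O with s | i
      · exfalso
        rw [hB1 O s hfO] at hx
        exact hoff O (vv O) (hvv O) (hx ▸ hfS O s hfO)
      · exact ⟨O, i, hfO, rfl⟩
  refine ⟨m, hMt, ?_, ?_⟩
  · choose g hg using hsI
    have h3 : ex m = univ.image fun i : Fin d => vv (g i) := by
      ext x
      rw [mem_ex, Finset.mem_image]
      constructor
      · intro hx
        obtain ⟨O, i, hO, rfl⟩ := hex x hx
        refine ⟨i, Finset.mem_univ i, ?_⟩
        rw [hf ((hg i).trans hO.symm)]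
      · rintro ⟨i, _, rfl⟩
        exact hB2 (g i) i (hg i)
    have h4 : (ex m).card = d := by
      rw [h3, Finset.card_image_of_injective, Finset.card_univ, Fintype.card_fin]
      intro i j hij
      have h5 : g i = g j := by
        apply huniq _ _ (vv (g i)) (hvv _)
        simp only at hij
        rw [hij]
        exact hvv _
      have h6 := hg i
      rw [h5, hg j] at h6
      exact (Sum.inr_injective h6).symm
    omega
  · intro x hx
    rw [mem_ex] at hx
    obtain ⟨O, i, hO, rfl⟩ := hex x hx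
    obtain ⟨h3, h4⟩ := hinr O i hO
    constructor
    · rw [h3, card_lv_singleton] at h4
      exact h4
    · intro w hw
      rcases h.bar.closed O.1 O.2 (vv O) (hvv O) w hw with h5 | h5
      · rw [h3, Finset.mem_singleton] at h5
        exact absurd h5.symm hw.ne
      · exact h5

end Pool.Agent.Helper52.AH
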