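import Pool.Agent.Helper52.AH.Core
import Pool.Agent.Helper52.AH.Tight
import Pool.Agent.Helper52.AH.Contract

/-!
# L8: the induction
-/

set_option autoImplicit false

namespace Pool.Agent.Helper52.AH

open Finset

universe u

/-- some pair `(S, F)` with `S` nonempty shows that `G` is not factor-critical (always the case for an
even number of vertices) -/
def NF {V : Type u} [Fintype V] (G : SimpleGraph V) : Prop :=
  ∃ (S : Finset V) (F : Finset (Finset V)), Bar G S F ∧ S.Nonempty ∧
    S.card + Fintype.card V % 2 ≤ F.card

/-- every set of vertices, nonempty and not everything, is left by at least two edges -/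
def TwoCon {V : Type u} [Fintype V] (G : SimpleGraph V) : Prop :=
  ∀ X : Finset V, X.Nonempty → X ≠ univ → 2 ≤ (lv G X).card

open Classical in
theorem nf_even {V : Type u} [Fintype V] (G : SimpleGraph V) (hev : Even (Fintype.card V)) (v : V) :
    NF G := by
  refine ⟨{v}, {univ.erase v}, ⟨?_, ?_, ?_, ?_⟩, ⟨v, mem_singleton_self v⟩, ?_⟩
  · intro O hO
    rw [mem_singleton] at hO
    rw [hO]
    have h1 := Finset.card_erase_add_one (mem_univ v)
    rw [card_univ] at h1
    rw [← h1] at hev
    by_contra h
    rw [Nat.not_odd_iff_even] at h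
    exact (Nat.not_even_iff_odd.2 h.add_one) hev
  · intro O hO O' hO' w _ _
    rw [mem_singleton] at hO hO'
    rw [hO, hO']
  · intro O hO w hw
    rw [mem_singleton] at hO
    rw [hO, mem_erase] at hw
    rw [mem_singleton]
    exact hw.1
  · intro O hO w _ z _
    rw [mem_singleton] at hO
    rw [hO, mem_erase, mem_singleton]
    by_cases h : z = v
    · exact Or.inr h
    · exact Or.inl ⟨h, mem_univ _⟩
  · rw [card_singleton, card_singleton, Nat.even_iff.1 hev]

open Classical in
theorem cut2_of_card {V : Type u} [Fintype V] {G : SimpleGraph V} (hdeg : ∀ v, dg G v ≤ 3)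
    (h2 : TwoCon G) (O : Finset V) (hc : (lv G O).card = 2) (hO : 2 ≤ O.card)
    (hO' : 2 ≤ Oᶜ.card) : ∃ v1 v2 s1 s2, Cut2 G O v1 v2 s1 s2 := by
  obtain ⟨p1, p2, hne, hp⟩ := Finset.card_eq_two.1 hc
  have h1 : p1 ∈ lv G O := by rw [hp]; simp
  have h1' : p2 ∈ lv G O := by rw [hp]; simp
  rw [mem_lv] at h1 h1'
  have only : ∀ v s, v ∈ O → s ∉ O → G.Adj v s → (v, s) = p1 ∨ (v, s) = p2 := by
    intro v s hv hs ha
    have : (v, s) ∈ lv G O := mem_lv.2 ⟨hv, hs, ha⟩
    rw [hp] at this
    simpa using this
  refine ⟨p1.1, p2.1, p1.2, p2.2, h1.1, h1'.1, h1.2.1, h1'.2.1, ?_, ?_, h1.2.2, h1'.2.2, ?_⟩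
  · -- the ends in `O` are different
    intro e
    have hs : p1.2 ≠ p2.2 := fun e' => hne (Prod.ext e e')
    have hX : (O.erase p1.1).Nonempty := by
      rw [← Finset.card_pos]
      have := Finset.card_erase_add_one h1.1
      omega
    have hXu : O.erase p1.1 ≠ univ := by
      intro h
      have := mem_univ p1.1
      rw [← h] at this
      simp at this
    have h3 := h2 _ hX hXu
    have h4 : (lv G (O.erase p1.1)).card ≤ (((nb G p1.1).erase p1.2).erase p2.2).card := by
      apply Finset.card_le_card_of_injOn (fun p => p.1)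
      · intro p hp'
        rw [Finset.mem_coe, mem_lv, mem_erase, mem_erase] at hp'
        obtain ⟨⟨ha, hb⟩, hc', hd⟩ := hp'
        have he : p.2 = p1.1 := by
          by_contra hne'
          have hoff : p.2 ∉ O := fun h => hc' ⟨hne', h⟩
          rcases only _ _ hb hoff hd with h | h
          · exact ha (by rw [← h])
          · exact ha (by rw [e, ← h])
        rw [Finset.mem_coe, mem_erase, mem_erase, mem_nb]
        refine ⟨fun h => h1'.2.1 (by rw [← h]; exact hb), fun h => h1.2.1 (by rw [← h]; exact hb), ?_⟩
        rw [← he]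
        exact hd.symm
      · intro p hp' q hq' hpq
        rw [Finset.mem_coe, mem_lv, mem_erase, mem_erase] at hp' hq'
        have he : ∀ r : V × V, (r.1 ≠ p1.1 ∧ r.1 ∈ O) ∧ ¬ (r.2 ≠ p1.1 ∧ r.2 ∈ O) ∧ G.Adj r.1 r.2 →
            r.2 = p1.1 := by
          rintro r ⟨⟨ha, hb⟩, hc', hd⟩
          by_contra hne'
          have hoff : r.2 ∉ O := fun h => hc' ⟨hne', h⟩
          rcases only _ _ hb hoff hd with h | h
          · exact ha (by rw [← h])
          · exact ha (by rw [e, ← h])
        exact Prod.ext hpq ((he p hp').trans (he q hq').symm)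
    have h5 : (((nb G p1.1).erase p1.2).erase p2.2).card + 2 = dg G p1.1 := by
      rw [dg]
      have ha : p1.2 ∈ nb G p1.1 := mem_nb.2 h1.2.2
      have hb : p2.2 ∈ (nb G p1.1).erase p1.2 := by
        rw [mem_erase, mem_nb, e]
        exact ⟨hs.symm, h1'.2.2⟩
      have := Finset.card_erase_add_one ha
      have := Finset.card_erase_add_one hb
      omega
    have := hdeg p1.1
    omega
  · -- the ends off `O` are different
    intro e
    have hs : p1.1 ≠ p2.1 := fun e' => hne (Prod.ext e' e)
    have hX : (insert p1.2 O).Nonempty := ⟨p1.2, mem_insert_self _ _⟩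
    have hXu : insert p1.2 O ≠ univ := by
      intro h
      have h3 : Oᶜ ⊆ {p1.2} := by
        intro x hx
        rw [mem_compl] at hx
        have := mem_univ x
        rw [← h, mem_insert] at this
        rw [mem_singleton]
        tauto
      have := Finset.card_le_card h3
      rw [card_singleton] at this
      omega
    have h3 := h2 _ hX hXu
    have hone : ∀ p : V × V, p ∈ lv G (insert p1.2 O) → p.1 = p1.2 := by
      intro p hp'
      rw [mem_lv, mem_insert, mem_insert] at hp'
      obtain ⟨ha, hb, hc'⟩ := hp'
      rcases ha with ha | ha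
      · exact ha
      · exfalso
        have hoff : p.2 ∉ O := fun h => hb (Or.inr h)
        rcases only _ _ ha hoff hc' with h | h
        · exact hb (Or.inl (by rw [← h]))
        · exact hb (Or.inl (by rw [e, ← h]))
    have h4 : (lv G (insert p1.2 O)).card ≤ (((nb G p1.2).erase p1.1).erase p2.1).card := by
      apply Finset.card_le_card_of_injOn (fun p => p.2)
      · intro p hp'
        rw [Finset.mem_coe] at hp'
        have h6 := hone p hp'
        rw [mem_lv, mem_insert, mem_insert] at hp'
        obtain ⟨ha, hb, hc'⟩ := hp'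
        rw [Finset.mem_coe, mem_erase, mem_erase, mem_nb]
        refine ⟨fun h => hb (Or.inr ?_), fun h => hb (Or.inr ?_), ?_⟩
        · have h' : p.2 = p2.1 := h
          rw [h']
          exact h1'.1
        · have h' : p.2 = p1.1 := h
          rw [h']
          exact h1.1
        · rw [← h6]
          exact hc'
      · intro p hp' q hq' hpq
        exact Prod.ext ((hone p hp').trans (hone q hq').symm) hpq
    have h5 : (((nb G p1.2).erase p1.1).erase p2.1).card + 2 = dg G p1.2 := by
      rw [dg]
      have ha : p1.1 ∈ nb G p1.2 := mem_nb.2 h1.2.2.symm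
      have hb : p2.1 ∈ (nb G p1.2).erase p1.1 := by
        rw [mem_erase, mem_nb, e]
        exact ⟨hs.symm, h1'.2.2.symm⟩
      have := Finset.card_erase_add_one ha
      have := Finset.card_erase_add_one hb
      omega
    have := hdeg p1.2
    omega
  · intro v s hv hs ha
    rcases only v s hv hs ha with h | h
    · left; rw [← h]; exact ⟨rfl, rfl⟩
    · right; rw [← h]; exact ⟨rfl, rfl⟩

open Classical in
/-- a set of vertices off `U` as a set of vertices of `ctr G U` -/
noncomputable def emb {V : Type u} [Fintype V] (U Q : Finset V) : Finset (Option {v : V // v ∉ U}) :=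
  univ.filter fun x => ∃ a : {v : V // v ∉ U}, x = some a ∧ a.1 ∈ Q

theorem mem_emb {V : Type u} [Fintype V] {U Q : Finset V} {a : {v : V // v ∉ U}} :
    some a ∈ emb U Q ↔ a.1 ∈ Q := by
  simp [emb]

theorem none_emb {V : Type u} [Fintype V] {U Q : Finset V} :
    (none : Option {v : V // v ∉ U}) ∉ emb U Q := by
  simp [emb]

open Classical in
theorem card_emb {V : Type u} [Fintype V] {U Q : Finset V} (h : ∀ v ∈ Q, v ∉ U) :
    (emb U Q).card = Q.card := by
  symm
  apply Finset.card_bij (fun v hv => some ⟨v, h v hv⟩)
  · intro v hv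
    exact mem_emb.2 hv
  · intro v hv w hw e
    simpa using e
  · intro x hx
    rcases x with _ | a
    · exact absurd hx none_emb
    · exact ⟨a.1, mem_emb.1 hx, rfl⟩

open Classical in
theorem nf_ctr {V : Type u} [Fintype V] {G : SimpleGraph V} {S : Finset V} {F : Finset (Finset V)}
    (hB : Bar G S F) (hS : S.Nonempty) (hlt : S.card < F.card) {O : Finset V} (hO : O ∈ F) :
    NF (ctr G O) := by
  have hSO : ∀ v ∈ S, v ∉ O := fun v hv h => hB.off O hO v h hv
  have hQO : ∀ Q ∈ F.erase O, ∀ v ∈ Q, v ∉ O := by
    intro Q hQ v hv h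
    rw [mem_erase] at hQ
    exact hQ.1 (hB.disj Q hQ.2 O hO v hv h)
  have hcard : (insert {none} ((F.erase O).image (emb O))).card = F.card := by
    rw [Finset.card_insert_of_notMem, Finset.card_image_of_injOn, Finset.card_erase_add_one hO]
    · intro Q hQ Q' hQ' e
      rw [Finset.mem_coe] at hQ hQ'
      ext v
      constructor
      · intro hv
        have h1 : some (⟨v, hQO Q hQ v hv⟩ : {v : V // v ∉ O}) ∈ emb O Q := mem_emb.2 hv
        rw [e] at h1
        exact mem_emb.1 h1
      · intro hv
        have h1 : some (⟨v, hQO Q' hQ' v hv⟩ : {v : V // v ∉ O}) ∈ emb O Q' := mem_emb.2 hv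
        rw [← e] at h1
        exact mem_emb.1 h1
    · intro h
      rw [mem_image] at h
      obtain ⟨Q, _, hQ⟩ := h
      have : (none : Option {v : V // v ∉ O}) ∈ emb O Q := by rw [hQ]; simp
      exact none_emb this
  refine ⟨emb O S, insert {none} ((F.erase O).image (emb O)), ⟨?_, ?_, ?_, ?_⟩, ?_, ?_⟩
  · intro Q hQ
    rw [mem_insert, mem_image] at hQ
    rcases hQ with rfl | ⟨Q', hQ', rfl⟩
    · simp
    · rw [card_emb (hQO Q' hQ')]
      exact hB.odd Q' (mem_of_mem_erase hQ')
  · intro Q hQ Q' hQ' x hx hx'
    rw [mem_insert, mem_image] at hQ hQ'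
    rcases hQ with rfl | ⟨Q1, hQ1, rfl⟩
    · rcases hQ' with rfl | ⟨Q2, hQ2, rfl⟩
      · rfl
      · rw [mem_singleton] at hx
        rw [hx] at hx'
        exact absurd hx' none_emb
    · rcases hQ' with rfl | ⟨Q2, hQ2, rfl⟩
      · rw [mem_singleton] at hx'
        rw [hx'] at hx
        exact absurd hx none_emb
      · rcases x with _ | a
        · exact absurd hx none_emb
        · rw [hB.disj Q1 (mem_of_mem_erase hQ1) Q2 (mem_of_mem_erase hQ2) a.1 (mem_emb.1 hx)
            (mem_emb.1 hx')]
  · intro Q hQ x hx
    rw [mem_insert, mem_image] at hQ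
    rcases hQ with rfl | ⟨Q1, hQ1, rfl⟩
    · rw [mem_singleton] at hx
      rw [hx]
      exact none_emb
    · rcases x with _ | a
      · exact none_emb
      · intro h
        exact hB.off Q1 (mem_of_mem_erase hQ1) a.1 (mem_emb.1 hx) (mem_emb.1 h)
  · intro Q hQ x hx y hxy
    rw [mem_insert, mem_image] at hQ
    rcases hQ with rfl | ⟨Q1, hQ1, rfl⟩
    · rw [mem_singleton] at hx
      subst hx
      rcases y with _ | c
      · exact absurd hxy (by simp [ctr])
      · right
        obtain ⟨q, hq, hadj⟩ : ∃ q ∈ O, G.Adj c.1 q := hxy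
        rcases hB.closed O hO q hq c.1 hadj.symm with h | h
        · exact absurd h c.2
        · exact mem_emb.2 h
    · rcases x with _ | a
      · exact absurd hx none_emb
      · have ha : a.1 ∈ Q1 := mem_emb.1 hx
        rcases y with _ | c
        · exfalso
          obtain ⟨q, hq, hadj⟩ : ∃ q ∈ O, G.Adj a.1 q := hxy
          rcases hB.closed Q1 (mem_of_mem_erase hQ1) a.1 ha q hadj with h | h
          · exact hQO Q1 hQ1 q h hq
          · exact hSO q h hq
        · have hadj : G.Adj a.1 c.1 := hxy
          rcases hB.closed Q1 (mem_of_mem_erase hQ1) a.1 ha c.1 hadj with h | h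
          · exact Or.inl (mem_emb.2 h)
          · exact Or.inr (mem_emb.2 h)
  · obtain ⟨s, hs⟩ := hS
    exact ⟨some ⟨s, hSO s hs⟩, mem_emb.2 hs⟩
  · rw [hcard, card_emb hSO]
    have := Nat.mod_lt (Fintype.card (Option {v : V // v ∉ O})) (by norm_num : 0 < 2)
    omega

open Classical in
theorem main_ind (n : ℕ) : ∀ (V : Type u) [Fintype V] (G : SimpleGraph V), Fintype.card V ≤ n →
    (∀ v, dg G v ≤ 3) → TwoCon G → ∀ b : V → Bool,
    (∀ v w, G.Adj v w → dg G v = 3 → dg G w = 3 → b v ≠ b w) → NF G → Col3 G := by
  induction n with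
  | zero =>
    intro V _ G h0 _ _ _ _ hnf
    exfalso
    obtain ⟨S, F, _, ⟨v, _⟩, _⟩ := hnf
    have := Fintype.card_pos_iff.2 ⟨v⟩
    omega
  | succ n ih =>
    intro V _ G hn hdeg h2 b hb hnf
    obtain ⟨S, F, hM⟩ := exists_maxBar G
    have hle : S.card ≤ F.card := by
      have := hM.val ∅ ∅ ⟨by simp, by simp, by simp, by simp⟩
      simpa using this
    -- `S` is not empty
    have hS : S.Nonempty := by
      rw [Finset.nonempty_iff_ne_empty]
      intro hS
      subst hS
      obtain ⟨S0, F0, hB0, hS0, hv0⟩ := hnf
      have huniv : ∀ O ∈ F, O = univ := by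
        intro O hO
        by_contra hne
        have hOn : O.Nonempty := by
          rw [← Finset.card_pos]
          exact (hM.bar.odd O hO).pos
        have h3 := h2 O hOn hne
        have h4 : (lv G O).Nonempty := by
          rw [← Finset.card_pos]
          omega
        obtain ⟨p, hp⟩ := h4
        rw [mem_lv] at hp
        rcases hM.bar.closed O hO p.1 hp.1 p.2 hp.2.2 with h | h
        · exact hp.2.1 h
        · simp at h
      have hF : F ⊆ {univ} := fun O hO => mem_singleton.2 (huniv O hO)
      have hF1 : F.card ≤ Fintype.card V % 2 := by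
        rcases F.eq_empty_or_nonempty with h | ⟨O, hO⟩
        · rw [h, card_empty]
          exact Nat.zero_le _
        · have h3 := Finset.card_le_card hF
          rw [card_singleton] at h3
          have h4 := hM.bar.odd O hO
          rw [huniv O hO, card_univ, Nat.odd_iff] at h4
          omega
      have h5 := hM.val S0 F0 hB0
      have h6 := hM.big S0 F0 hB0 (by
        rw [card_empty] at h5 ⊢
        omega)
      have := hS0.card_pos
      simp at h6
      rw [h6] at this
      simp at this
    have hlv2 : ∀ O ∈ F, 2 ≤ (lv G O).card := by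
      intro O hO
      apply h2
      · rw [← Finset.card_pos]
        exact (hM.bar.odd O hO).pos
      · intro h
        obtain ⟨s, hs⟩ := hS
        exact hM.bar.off O hO s (by rw [h]; exact mem_univ _) hs
    by_cases hcase : F.card = S.card ∨ ∀ O ∈ F, (lv G O).card = 2 → ∃ x, O = {x}
    · obtain ⟨m, hm, ht, hx⟩ := exists_tight hdeg hM hlv2 hcase
      exact core hdeg b hb hM.bar hm ht hx
    · rw [not_or] at hcase
      obtain ⟨hne, hO⟩ := hcase
      push Not at hO
      obtain ⟨O, hOF, hO2, hOx⟩ := hO
      have hodd := hM.bar.odd O hOF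
      have hO3 : 2 ≤ O.card := by
        by_contra h
        have h1 := hodd.pos
        have h3 : O.card = 1 := by omega
        obtain ⟨x, hx⟩ := Finset.card_eq_one.1 h3
        exact hOx x hx
      have hOc : 2 ≤ Oᶜ.card := by
        obtain ⟨s, hs⟩ := hS
        have hSc : 1 ≤ S.card := Finset.card_pos.2 ⟨s, hs⟩
        have h1 : 1 ≤ (F.erase O).card := by
          have := Finset.card_erase_add_one hOF
          omega
        obtain ⟨Q, hQ⟩ := Finset.card_pos.1 h1
        rw [mem_erase] at hQ
        obtain ⟨x, hx⟩ := Finset.card_pos.1 (hM.bar.odd Q hQ.2).pos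
        have hsx : s ≠ x := fun e => hM.bar.off Q hQ.2 x hx (by rw [← e]; exact hs)
        rw [← Finset.card_pair hsx]
        apply Finset.card_le_card
        intro z hz
        rw [mem_insert, mem_singleton] at hz
        rw [mem_compl]
        rcases hz with rfl | rfl
        · exact fun h => hM.bar.off O hOF _ h hs
        · exact fun h => hQ.1 (hM.bar.disj Q hQ.2 O hOF _ hx h)
      obtain ⟨v1, v2, s1, s2, hcut⟩ := cut2_of_card hdeg h2 O hO2 hO3 hOc
      have hcc : O.card + Oᶜ.card = Fintype.card V := Finset.card_add_card_compl O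
      have hodd3 : 3 ≤ O.card := by
        obtain ⟨t, ht⟩ := hodd
        omega
      -- both contractions
      have hA : Col3 (ctr G O) := by
        refine ih _ (ctr G O) ?_ ?_ ?_ (fun x => x.elim true (fun a => b a.1)) ?_ ?_
        · rw [Fintype.card_option, Fintype.card_subtype]
          have : (univ.filter fun v => v ∉ O) = Oᶜ := by ext v; simp
          rw [this]
          omega
        · rintro (_ | a)
          · rw [dg_none hcut]; norm_num
          · rw [dg_some hcut]; exact hdeg _
        · exact fun X h0 h1 => lv_ctr hcut h2 X h0 h1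
        · rintro (_ | v) (_ | w) hadj hv hw
          · rw [dg_none hcut] at hv; omega
          · rw [dg_none hcut] at hv; omega
          · rw [dg_none hcut] at hw; omega
          · rw [dg_some hcut] at hv hw
            exact hb v.1 w.1 hadj hv hw
        · exact nf_ctr hM.bar hS (by omega) hOF
      have hB : Col3 (ctr G Oᶜ) := by
        have hcut' := hcut.compl
        refine ih _ (ctr G Oᶜ) ?_ ?_ ?_ (fun x => x.elim true (fun a => b a.1)) ?_ ?_
        · rw [Fintype.card_option, Fintype.card_subtype]
          have : (univ.filter fun v => v ∉ Oᶜ) = O := by ext v; simp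
          rw [this]
          omega
        · rintro (_ | a)
          · rw [dg_none hcut']; norm_num
          · rw [dg_some hcut']; exact hdeg _
        · exact fun X h0 h1 => lv_ctr hcut' h2 X h0 h1
        · rintro (_ | v) (_ | w) hadj hv hw
          · rw [dg_none hcut'] at hv; omega
          · rw [dg_none hcut'] at hv; omega
          · rw [dg_none hcut'] at hw; omega
          · rw [dg_some hcut'] at hv hw
            exact hb v.1 w.1 hadj hv hw
        · apply nf_even _ _ none
          rw [Fintype.card_option, Fintype.card_subtype]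
          have : (univ.filter fun v => v ∉ Oᶜ) = O := by ext v; simp
          rw [this]
          exact hodd.add_one
      exact glue hcut hA hB

end Pool.Agent.Helper52.AH
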