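import Pool.Agent.Helper52.AH.TutteFam

/-!
# L4: maximal pairs `(S, F)`

* `exists_maxBar`: there are finitely many pairs, `Bar G ∅ ∅`; maximize
  `(F.card + card V - S.card) * (card V + 1) + S.card` (or use `Finset.exists_max_image` twice).
* `MaxBar.all`: let `R` be the set of vertices not in `S` and in no `O ∈ F`. `R` has all its neighbours in
  `R ∪ S` (`closed`). If `R.card` is odd, `Bar G S (insert R F)` contradicts `val`. If `R.card` is even and
  not zero, take `v ∈ R`: `Bar G (insert v S) (insert (R.erase v) F)` contradicts `big`.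
* `MaxBar.near`: let `W = {w // w ∈ O ∧ w ≠ v}` (even cardinality) and `H = G.comap Subtype.val` (the induced
  graph). If `H` has a perfect matching, extend it by the identity. Otherwise `tutteFam` gives `T`, `F1` with
  `T.card + 2 ≤ F1.card`; let `T'`, `F1'` be their images in `V`; then
  `Bar G (S ∪ {v} ∪ T') ((F.erase O) ∪ F1')` holds and
  `card = F.card - 1 + F1.card ≥ F.card + T.card + 1`, while `S.card + 1 + T.card` is the size of the new
  set: the value is at least the old one and the set is larger: contradiction with `val` or `big`.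
-/

set_option autoImplicit false

namespace Pool.Agent.Helper52.AH

open Finset

universe u

theorem exists_maxBar {V : Type u} [Fintype V] (G : SimpleGraph V) :
    ∃ (S : Finset V) (F : Finset (Finset V)), MaxBar G S F := by
  classical
  let P : Finset (Finset V × Finset (Finset V)) := univ.filter fun p => Bar G p.1 p.2
  have hP : ∀ p : Finset V × Finset (Finset V), p ∈ P ↔ Bar G p.1 p.2 := fun p => by simp [P]
  have hne : P.Nonempty := by
    refine ⟨(∅, ∅), (hP _).2 ⟨?_, ?_, ?_, ?_⟩⟩ <;> simp
  obtain ⟨p0, hp0, hmax0⟩ :=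
    Finset.exists_max_image P (fun p => (p.2.card : ℤ) - p.1.card) hne
  have hne1 : (P.filter fun p => (p.2.card : ℤ) - p.1.card = (p0.2.card : ℤ) - p0.1.card).Nonempty :=
    ⟨p0, Finset.mem_filter.2 ⟨hp0, rfl⟩⟩
  obtain ⟨p1, hp1, hmax1⟩ := Finset.exists_max_image _ (fun p => p.1.card) hne1
  rw [Finset.mem_filter] at hp1
  refine ⟨p1.1, p1.2, (hP p1).1 hp1.1, ?_, ?_⟩
  · intro S' F' hb
    have h1 := hmax0 (S', F') ((hP _).2 hb)
    have h2 := hp1.2
    simp only at h1 h2
    omega
  · intro S' F' hb heq
    apply hmax1 (S', F')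
    rw [Finset.mem_filter]
    refine ⟨(hP _).2 hb, ?_⟩
    have h2 := hp1.2
    simp only at h2 ⊢
    omega

theorem MaxBar.all {V : Type u} [Fintype V] {G : SimpleGraph V} {S : Finset V}
    {F : Finset (Finset V)} (h : MaxBar G S F) (v : V) : v ∈ S ∨ ∃ O ∈ F, v ∈ O := by
  classical
  by_contra hcon
  push Not at hcon
  let R : Finset V := univ.filter fun v => v ∉ S ∧ ∀ O ∈ F, v ∉ O
  have hR : ∀ w, w ∈ R ↔ w ∉ S ∧ ∀ O ∈ F, w ∉ O := fun w => by simp [R]
  have hv : v ∈ R := (hR v).2 hcon
  have hcl : ∀ u ∈ R, ∀ w, G.Adj u w → w ∈ R ∨ w ∈ S := by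
    intro u hu w huw
    by_cases hw : w ∈ S
    · exact Or.inr hw
    · refine Or.inl ((hR w).2 ⟨hw, fun O hO hwO => ?_⟩)
      rcases h.bar.closed O hO w hwO u huw.symm with h1 | h1
      · exact ((hR u).1 hu).2 O hO h1
      · exact ((hR u).1 hu).1 h1
  rcases Nat.even_or_odd R.card with he | ho
  · -- even
    have hodd : Odd (R.erase v).card := by
      rw [Finset.card_erase_of_mem hv]
      have h1 : 0 < R.card := Finset.card_pos.2 ⟨v, hv⟩
      obtain ⟨k, hk⟩ := he
      exact ⟨k - 1, by omega⟩
    have hnot : R.erase v ∉ F := by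
      intro hF
      obtain ⟨w, hw⟩ := Finset.card_pos.1 hodd.pos
      exact ((hR w).1 (Finset.mem_of_mem_erase hw)).2 _ hF hw
    have hb : Bar G (insert v S) (insert (R.erase v) F) := by
      constructor
      · intro O hO
        rcases Finset.mem_insert.1 hO with rfl | hO
        · exact hodd
        · exact h.bar.odd O hO
      · intro O hO O' hO' w hw hw'
        rcases Finset.mem_insert.1 hO with rfl | hO <;>
          rcases Finset.mem_insert.1 hO' with rfl | hO'
        · rfl
        · exact absurd hw' (((hR w).1 (Finset.mem_of_mem_erase hw)).2 _ hO')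
        · exact absurd hw (((hR w).1 (Finset.mem_of_mem_erase hw')).2 _ hO)
        · exact h.bar.disj O hO O' hO' w hw hw'
      · intro O hO w hw hwS
        rcases Finset.mem_insert.1 hO with rfl | hO
        · rcases Finset.mem_insert.1 hwS with rfl | hwS
          · exact absurd rfl (Finset.mem_erase.1 hw).1
          · exact ((hR w).1 (Finset.mem_of_mem_erase hw)).1 hwS
        · rcases Finset.mem_insert.1 hwS with h2 | hwS
          · exact hcon.2 O hO (h2 ▸ hw)
          · exact h.bar.off O hO w hw hwS
      · intro O hO u hu w huw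
        rcases Finset.mem_insert.1 hO with rfl | hO
        · rcases hcl u (Finset.mem_of_mem_erase hu) w huw with h1 | h1
          · by_cases hwv : w = v
            · exact Or.inr (Finset.mem_insert.2 (Or.inl hwv))
            · exact Or.inl (Finset.mem_erase.2 ⟨hwv, h1⟩)
          · exact Or.inr (Finset.mem_insert_of_mem h1)
        · rcases h.bar.closed O hO u hu w huw with h1 | h1
          · exact Or.inl h1
          · exact Or.inr (Finset.mem_insert_of_mem h1)
    have h1 := h.big _ _ hb (by
      rw [Finset.card_insert_of_notMem hnot, Finset.card_insert_of_notMem hcon.1]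
      omega)
    rw [Finset.card_insert_of_notMem hcon.1] at h1
    omega
  · -- odd
    have hnot : R ∉ F := fun hF => ((hR v).1 hv).2 _ hF hv
    have hb : Bar G S (insert R F) := by
      constructor
      · intro O hO
        rcases Finset.mem_insert.1 hO with rfl | hO
        · exact ho
        · exact h.bar.odd O hO
      · intro O hO O' hO' w hw hw'
        rcases Finset.mem_insert.1 hO with rfl | hO <;>
          rcases Finset.mem_insert.1 hO' with rfl | hO'
        · rfl
        · exact absurd hw' (((hR w).1 hw).2 _ hO')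
        · exact absurd hw (((hR w).1 hw').2 _ hO)
        · exact h.bar.disj O hO O' hO' w hw hw'
      · intro O hO w hw hwS
        rcases Finset.mem_insert.1 hO with rfl | hO
        · exact ((hR w).1 hw).1 hwS
        · exact h.bar.off O hO w hw hwS
      · intro O hO u hu w huw
        rcases Finset.mem_insert.1 hO with rfl | hO
        · exact hcl u hu w huw
        · exact h.bar.closed O hO u hu w huw
    have h1 := h.val _ _ hb
    rw [Finset.card_insert_of_notMem hnot] at h1
    omega

theorem MaxBar.near {V : Type u} [Fintype V] {G : SimpleGraph V} {S : Finset V}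
    {F : Finset (Finset V)} (h : MaxBar G S F) {O : Finset V} (hO : O ∈ F) {v : V} (hv : v ∈ O) :
    ∃ m : V → V, Mt G m ∧ (∀ w, w ∈ O → w ≠ v → m w ≠ w ∧ m w ∈ O) ∧ (∀ w, w ∉ O → m w = w) ∧
      m v = v := by
  classical
  let W := {w : V // w ∈ O ∧ w ≠ v}
  let H : SimpleGraph W := G.comap Subtype.val
  have hH : ∀ a b : W, H.Adj a b ↔ G.Adj a.1 b.1 := fun a b => Iff.rfl
  have hcard : Fintype.card W = O.card - 1 := by
    rw [Fintype.card_subtype, ← Finset.card_erase_of_mem hv]
    apply congrArg Finset.card
    ext w
    simp only [mem_filter, mem_univ, true_and, mem_erase]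
    tauto
  have hev : Even (Fintype.card W) := by
    obtain ⟨k, hk⟩ := h.bar.odd O hO
    exact ⟨k, by omega⟩
  by_cases hno : ∃ m : W → W, Mt H m ∧ ∀ w, m w ≠ w
  · obtain ⟨m, hm, hm1⟩ := hno
    let m' : V → V := fun w => if hw : w ∈ O ∧ w ≠ v then (m ⟨w, hw⟩).1 else w
    have hin : ∀ (w : V) (hw : w ∈ O ∧ w ≠ v), m' w = (m ⟨w, hw⟩).1 := fun w hw => dif_pos hw
    have hout : ∀ w : V, ¬ (w ∈ O ∧ w ≠ v) → m' w = w := fun w hw => dif_neg hw
    refine ⟨m', ⟨?_, ?_⟩, ?_, ?_, ?_⟩
    · intro w
      by_cases hw : w ∈ O ∧ w ≠ v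
      · rw [hin w hw, hin _ (m ⟨w, hw⟩).2]
        exact congrArg Subtype.val (hm.inv ⟨w, hw⟩)
      · rw [hout w hw, hout w hw]
    · intro w hw'
      by_cases hw : w ∈ O ∧ w ≠ v
      · rw [hin w hw]
        exact hm.adj ⟨w, hw⟩ (hm1 _)
      · exact absurd (hout w hw) hw'
    · intro w hwO hwv
      rw [hin w ⟨hwO, hwv⟩]
      refine ⟨fun h1 => hm1 ⟨w, hwO, hwv⟩ (Subtype.ext h1), (m ⟨w, hwO, hwv⟩).2.1⟩
    · intro w hwO
      exact hout w fun h1 => hwO h1.1
    · exact hout v fun h1 => h1.2 rfl
  · exfalso
    obtain ⟨T, F1, hb, hc⟩ := tutteFam H hev hno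
    let T' : Finset V := T.image Subtype.val
    let F1' : Finset (Finset V) := F1.image fun X => X.image Subtype.val
    have hT' : ∀ w, w ∈ T' → ∃ w' : W, w' ∈ T ∧ w'.1 = w := fun w hw => Finset.mem_image.1 hw
    have hF1' : ∀ X ∈ F1', ∃ Y ∈ F1, Y.image Subtype.val = X := fun X hX =>
      Finset.mem_image.1 hX
    have hmemO : ∀ X ∈ F1', ∀ w ∈ X, w ∈ O ∧ w ≠ v := by
      intro X hX w hw
      obtain ⟨Y, _, rfl⟩ := hF1' X hX
      obtain ⟨w', _, rfl⟩ := Finset.mem_image.1 hw
      exact w'.2
    have hinj : Function.Injective fun X : Finset W => X.image Subtype.val :=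
      Finset.image_injective Subtype.val_injective
    have hbar : Bar G (insert v (S ∪ T')) (F.erase O ∪ F1') := by
      constructor
      · intro X hX
        rcases Finset.mem_union.1 hX with hX | hX
        · exact h.bar.odd X (Finset.mem_of_mem_erase hX)
        · obtain ⟨Y, hY, rfl⟩ := hF1' X hX
          rw [Finset.card_image_of_injective _ Subtype.val_injective]
          exact hb.odd Y hY
      · intro X hX X' hX' w hw hw'
        rcases Finset.mem_union.1 hX with hX | hX <;> rcases Finset.mem_union.1 hX' with hX' | hX'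
        · exact h.bar.disj X (Finset.mem_of_mem_erase hX) X' (Finset.mem_of_mem_erase hX') w hw hw'
        · exfalso
          rw [Finset.mem_erase] at hX
          exact hX.1 (h.bar.disj X hX.2 O hO w hw (hmemO X' hX' w hw').1)
        · exfalso
          rw [Finset.mem_erase] at hX'
          exact hX'.1 (h.bar.disj X' hX'.2 O hO w hw' (hmemO X hX w hw).1)
        · obtain ⟨Y, hY, rfl⟩ := hF1' X hX
          obtain ⟨Y', hY', rfl⟩ := hF1' X' hX'
          obtain ⟨w1, hw1, rfl⟩ := Finset.mem_image.1 hw
          obtain ⟨w2, hw2, hw3⟩ := Finset.mem_image.1 hw'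
          have h1 : w2 = w1 := Subtype.ext hw3
          rw [h1] at hw2
          rw [hb.disj Y hY Y' hY' w1 hw1 hw2]
      · intro X hX w hw hwS
        rcases Finset.mem_union.1 hX with hX | hX
        · rw [Finset.mem_erase] at hX
          have hwO : w ∉ O := fun h1 => hX.1 (h.bar.disj X hX.2 O hO w hw h1)
          rcases Finset.mem_insert.1 hwS with rfl | hwS
          · exact hwO hv
          · rcases Finset.mem_union.1 hwS with hwS | hwS
            · exact h.bar.off X hX.2 w hw hwS
            · obtain ⟨w', _, rfl⟩ := hT' w hwS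
              exact hwO w'.2.1
        · have hwO := hmemO X hX w hw
          rcases Finset.mem_insert.1 hwS with h1 | hwS
          · exact hwO.2 h1
          · rcases Finset.mem_union.1 hwS with hwS | hwS
            · exact h.bar.off O hO w hwO.1 hwS
            · obtain ⟨w', hw', rfl⟩ := hT' w hwS
              obtain ⟨Y, hY, rfl⟩ := hF1' X hX
              obtain ⟨w2, hw2, hw3⟩ := Finset.mem_image.1 hw
              have h1 : w2 = w' := Subtype.ext hw3
              rw [h1] at hw2
              exact hb.off Y hY w' hw2 hw'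
      · intro X hX u hu w huw
        rcases Finset.mem_union.1 hX with hX | hX
        · rcases h.bar.closed X (Finset.mem_of_mem_erase hX) u hu w huw with h1 | h1
          · exact Or.inl h1
          · exact Or.inr (Finset.mem_insert_of_mem (Finset.mem_union_left _ h1))
        · have huO := hmemO X hX u hu
          rcases h.bar.closed O hO u huO.1 w huw with h1 | h1
          · by_cases hwv : w = v
            · exact Or.inr (Finset.mem_insert.2 (Or.inl hwv))
            · obtain ⟨Y, hY, rfl⟩ := hF1' X hX
              obtain ⟨u', hu', rfl⟩ := Finset.mem_image.1 hu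
              rcases hb.closed Y hY u' hu' ⟨w, h1, hwv⟩ huw with h2 | h2
              · exact Or.inl (Finset.mem_image.2 ⟨_, h2, rfl⟩)
              · exact Or.inr (Finset.mem_insert_of_mem (Finset.mem_union_right _
                  (Finset.mem_image.2 ⟨_, h2, rfl⟩)))
          · exact Or.inr (Finset.mem_insert_of_mem (Finset.mem_union_left _ h1))
    have hdisj : Disjoint (F.erase O) F1' := by
      rw [Finset.disjoint_left]
      intro X hX hX'
      have hodd := hbar.odd X (Finset.mem_union_right _ hX')
      obtain ⟨w, hw⟩ := Finset.card_pos.1 hodd.pos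
      rw [Finset.mem_erase] at hX
      exact hX.1 (h.bar.disj X hX.2 O hO w hw (hmemO X hX' w hw).1)
    have hF' : (F.erase O ∪ F1').card = F.card - 1 + F1.card := by
      rw [Finset.card_union_of_disjoint hdisj, Finset.card_erase_of_mem hO,
        Finset.card_image_of_injective _ hinj]
    have hFpos : 0 < F.card := Finset.card_pos.2 ⟨O, hO⟩
    have hS' : (insert v (S ∪ T')).card ≤ S.card + T.card + 1 := by
      refine (Finset.card_insert_le _ _).trans ?_
      have h1 := Finset.card_union_le S T'
      have h2 : T'.card ≤ T.card := Finset.card_image_le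
      omega
    have h1 := h.val _ _ hbar
    have h2 : (F.erase O ∪ F1').card + S.card = F.card + (insert v (S ∪ T')).card := by
      omega
    have h3 := h.big _ _ hbar h2
    omega

end Pool.Agent.Helper52.AH
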