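import Pool.Agent.Helper52.AH.Defs

/-!
# L1: Tutte's theorem for families of finsets

Proof. Mathlib: `SimpleGraph.tutte` (a perfect matching `M : H.Subgraph`, `M.IsPerfectMatching`, exists iff
no `u : Set W` is a Tutte violator, `u.ncard < ((⊤ : H.Subgraph).deleteVerts u).coe.oddComponents.ncard`).
From `M` define the involution `m v = the M-neighbour of v` (every vertex is covered, so `m v ≠ v`). So by
`hno` there is a violator `u`. `T := u.toFinset`, `F :=` the image of the odd components under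
`c ↦ {w | ∃ h, ⟨w, h⟩ ∈ c.supp}` (injective, so `F.card` is the number of odd components; each has odd
card, is off `T`, and a neighbour `w` of `v ∈ c` is in `u` or in the same component). Parity:
`SimpleGraph.odd_ncard_oddComponents`: the number of odd components is odd iff `card W - card u` is odd, iff
`card u` is odd (`hev`); so it is not `card u + 1`, hence at least `card u + 2`.
-/

set_option autoImplicit false

namespace Pool.Agent.Helper52.AH

open Finset

universe u

theorem tutteFam {W : Type u} [Fintype W] (H : SimpleGraph W) (hev : Even (Fintype.card W))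
    (hno : ¬ ∃ m : W → W, Mt H m ∧ ∀ v, m v ≠ v) :
    ∃ (T : Finset W) (F : Finset (Finset W)), Bar H T F ∧ T.card + 2 ≤ F.card := by
  classical
  have hex : ∃ u, H.IsTutteViolator u := by
    by_contra hcon
    rw [not_exists] at hcon
    obtain ⟨M, hM⟩ := SimpleGraph.tutte.2 hcon
    apply hno
    have hex : ∀ v, ∃! w, M.Adj v w := fun v => hM.1 (hM.2 v)
    choose m hm huniq using hex
    refine ⟨m, ⟨fun v => ?_, fun v _ => M.adj_sub (hm v)⟩, fun v h => ?_⟩
    · exact (huniq (m v) v (hm v).symm).symm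
    · have h2 := M.adj_sub (hm v)
      rw [h] at h2
      exact H.loopless.irrefl _ h2
  obtain ⟨u, hu⟩ := hex
  rw [SimpleGraph.IsTutteViolator] at hu
  obtain ⟨K, hK⟩ : ∃ K : H.Subgraph, K = (⊤ : H.Subgraph).deleteVerts u := ⟨_, rfl⟩
  rw [← hK] at hu
  have hKv : ∀ w, w ∈ K.verts ↔ w ∉ u := by
    intro w
    rw [hK]
    simp
  have hKa : ∀ v w, K.Adj v w ↔ v ∉ u ∧ w ∉ u ∧ H.Adj v w := by
    intro v w
    rw [hK]
    simp
  let f : K.coe.ConnectedComponent → Finset W := fun c =>
    univ.filter fun w => ∃ h : w ∈ K.verts, (⟨w, h⟩ : K.verts) ∈ c.supp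
  have hf : ∀ c w, w ∈ f c ↔ ∃ h : w ∈ K.verts, K.coe.connectedComponentMk ⟨w, h⟩ = c := by
    intro c w
    simp [f, SimpleGraph.ConnectedComponent.mem_supp_iff]
  have hinj : Function.Injective f := by
    intro c c' h
    obtain ⟨⟨w, hw⟩, rfl⟩ := c.exists_rep
    have h1 : w ∈ f (K.coe.connectedComponentMk ⟨w, hw⟩) := (hf _ _).2 ⟨hw, rfl⟩
    have h2 : w ∈ f c' := h ▸ h1
    obtain ⟨_, h3⟩ := (hf _ _).1 h2
    exact h3
  have hcard : ∀ c, (f c).card = c.supp.ncard := by
    intro c
    rw [← Set.ncard_coe_finset]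
    have : ((f c : Finset W) : Set W) = Subtype.val '' c.supp := by
      ext w
      simp [f]
    rw [this, Set.ncard_image_of_injective _ Subtype.val_injective]
  obtain ⟨O, hO⟩ : ∃ O : Finset K.coe.ConnectedComponent,
      ∀ c, c ∈ O ↔ c ∈ K.coe.oddComponents := by
    refine ⟨(Set.toFinite K.coe.oddComponents).toFinset, fun c => ?_⟩
    simp
  have hOc : O.card = K.coe.oddComponents.ncard := by
    rw [← Set.ncard_coe_finset]
    congr 1
    ext c
    exact hO c
  refine ⟨u.toFinset, O.image f, ⟨?_, ?_, ?_, ?_⟩, ?_⟩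
  · intro A hA
    obtain ⟨c, hc, rfl⟩ := mem_image.1 hA
    rw [hcard]
    exact (hO c).1 hc
  · intro A hA B hB v hvA hvB
    obtain ⟨c, hc, rfl⟩ := mem_image.1 hA
    obtain ⟨c', hc', rfl⟩ := mem_image.1 hB
    obtain ⟨_, h1⟩ := (hf _ _).1 hvA
    obtain ⟨_, h2⟩ := (hf _ _).1 hvB
    rw [← h1, ← h2]
  · intro A hA v hv
    obtain ⟨c, hc, rfl⟩ := mem_image.1 hA
    obtain ⟨h1, _⟩ := (hf _ _).1 hv
    rw [Set.mem_toFinset]
    exact (hKv v).1 h1
  · intro A hA v hv w hvw
    obtain ⟨c, hc, rfl⟩ := mem_image.1 hA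
    obtain ⟨h1, h2⟩ := (hf _ _).1 hv
    by_cases hw : w ∈ u
    · exact Or.inr (Set.mem_toFinset.2 hw)
    · left
      have hwK : w ∈ K.verts := (hKv w).2 hw
      refine (hf _ _).2 ⟨hwK, ?_⟩
      rw [← h2]
      apply SimpleGraph.ConnectedComponent.connectedComponentMk_eq_of_adj
      rw [SimpleGraph.Subgraph.coe_adj]
      exact (hKa w v).2 ⟨hw, (hKv v).1 h1, hvw.symm⟩
  · rw [card_image_of_injective _ hinj, hOc]
    have h1 : u.toFinset.card = u.ncard := by
      rw [← Set.ncard_coe_finset, Set.coe_toFinset]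
    rw [h1]
    have h2 := SimpleGraph.odd_ncard_oddComponents K.coe
    have h3 : Nat.card K.verts + u.ncard = Fintype.card W := by
      have h4 : K.verts = uᶜ := by
        ext w
        simp [hKv]
      rw [Nat.card_coe_set_eq, h4, ← Nat.card_eq_fintype_card, add_comm]
      exact Set.ncard_add_ncard_compl u
    rw [← h3] at hev
    have h5 : Even (K.coe.oddComponents.ncard + u.ncard) := by
      rw [Nat.even_add] at hev ⊢
      rw [← Nat.not_odd_iff_even, h2, Nat.not_odd_iff_even]
      exact hev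
    obtain ⟨t, ht⟩ := h5
    omega

end Pool.Agent.Helper52.AH
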